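import Pool.Agent.X96.AX.Mor4

/-!
Axisymmetric flows (helper96): one-sided conditions on the radial velocity of critical Morrey type
in time, final form.
-/

set_option autoImplicit false

open MeasureTheory Set Metric Filter Topology
open scoped ContDiff

namespace Pool.Agent.X96.AX

open H459R3.NS W221.NS Pool.Agent.TH305.DR Pool.Agent.TH305.AX

lemma young_q {q κ : ℝ} (hq : 1 ≤ q) (hκ : κ < q ∨ q = 1 ∧ κ ≤ 1) :
    ∃ c₀ : ℝ, 0 ≤ c₀ ∧ ∀ ν x : ℝ, 0 < ν → 0 ≤ x → κ * ν + x ≤ q * ν + c₀ * ν ^ (1 - q) * x ^ q := by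
  rcases hκ with hκ | ⟨h1, h2⟩
  · have hd : 0 < q - κ := by linarith
    refine ⟨(q - κ) ^ (1 - q), (Real.rpow_pos_of_pos hd _).le, fun ν x hν hx => ?_⟩
    rw [← Real.mul_rpow hd.le hν.le]
    obtain ⟨e, he⟩ : ∃ e : ℝ, e = (q - κ) * ν := ⟨_, rfl⟩
    have he0 : 0 < e := by rw [he]; positivity
    rw [← he]
    have h1 : x ≤ e + e ^ (1 - q) * x ^ q := by
      rcases le_or_gt x e with h | h
      · have : 0 ≤ e ^ (1 - q) * x ^ q := by positivity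
        linarith
      · have hx0 : 0 < x := he0.trans h
        have h3 : x ^ (1 - q) ≤ e ^ (1 - q) :=
          Real.rpow_le_rpow_of_nonpos he0 h.le (by linarith)
        have h4 : x = x ^ (1 - q) * x ^ q := by
          rw [← Real.rpow_add hx0]
          norm_num
        have h5 : x ^ (1 - q) * x ^ q ≤ e ^ (1 - q) * x ^ q := by gcongr
        linarith
    have : e = q * ν - κ * ν := by rw [he]; ring
    linarith
  · refine ⟨1, zero_le_one, fun ν x hν hx => ?_⟩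
    rw [h1, sub_self, Real.rpow_zero, Real.rpow_one]
    nlinarith

/-- The condition in terms of the additional velocity `β`. -/
lemma cond_conv {q κ c₀ ν : ℝ} (hq : 1 ≤ q) (hν : 0 < ν)
    (hy : ∀ ν x : ℝ, 0 < ν → 0 ≤ x → κ * ν + x ≤ q * ν + c₀ * ν ^ (1 - q) * x ^ q)
    (hq2 : q < 2) {β σ w : ℝ} (hβ : 0 ≤ β) (hσ : 0 ≤ σ) (hw : -(κ * ν) - β * √σ ≤ w) :
    -(2 * (1 - (1 - q / 2)) * ν)
      - (2 * (1 - q / 2)) * (c₀ * ν ^ (1 - q) * β ^ q) / (2 * (1 - q / 2)) * σ ^ (1 - (1 - q / 2))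
      ≤ w := by
  have h1 := hy ν (β * √σ) hν (by positivity)
  have e1 : (β * √σ) ^ q = β ^ q * σ ^ (q / 2) := by
    rw [Real.mul_rpow hβ (Real.sqrt_nonneg _), Real.sqrt_eq_rpow, ← Real.rpow_mul hσ]
    congr 2
    ring
  have e2 : 1 - (1 - q / 2) = q / 2 := by ring
  have h2 : (2 * (1 - q / 2)) ≠ 0 := by
    have : 0 < 1 - q / 2 := by linarith
    positivity
  rw [e2, mul_div_assoc, mul_div_cancel₀ _ h2]
  rw [e1] at h1
  linarith

/-- **Hoelder estimate of the circulation.** -/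
theorem holderM {q κ C : ℝ} (hq : 1 ≤ q) (hq2 : q < 2) (hκ : κ < q ∨ q = 1 ∧ κ ≤ 1)
    (hC : 0 ≤ C) : ∃ γ : ℝ, 0 < γ ∧
    ∀ (ν T : ℝ) (u : ℝ → V → V) (p : ℝ → V → ℝ), 0 < ν → BSol ν T u p →
      ∀ (R M δ : ℝ) (β : ℝ → ℝ), 0 < R → 0 ≤ δ → 0 ≤ M → ContinuousOn β (Ico 0 T) →
      (∀ t ∈ Ico 0 T, 0 ≤ β t) →
      (∀ s t, 0 ≤ s → s ≤ t → t < T →
        ∫ r in s..t, β r ^ q ≤ C * ν ^ (q / 2) * (t - s) ^ (1 - q / 2)) →
      (∀ t ∈ Ico 0 T, ∀ x, sg x ≤ R ^ 2 → |circ (u t) x| ≤ M) →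
      (∀ t ∈ Ioo 0 T, ∀ x, 0 < sg x → sg x < R ^ 2 → δ < |circ (u t) x| →
        -(κ * ν) - β t * √(sg x) ≤ x 0 * u t x 0 + x 1 * u t x 1) →
      ∀ t ∈ Ioo 0 T, ∀ x, sg x ≤ R ^ 2 →
        |circ (u t) x| ≤ δ + 2 * M * (√(sg x) / min R √(ν * t)) ^ γ := by
  obtain ⟨c₀, hc₀, hy⟩ := young_q hq hκ
  have ha : 0 < 1 - q / 2 := by linarith
  obtain ⟨γ, hγ, H⟩ := morrey ha (by linarith)
    (show 0 ≤ 2 * (1 - q / 2) * c₀ * C by positivity)
  refine ⟨γ, hγ, ?_⟩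
  intro ν T u p hν h R M δ β hR hδ hM hβ hβ0 hβC hMb hcond
  have hνq : 0 < ν ^ (1 - q) := Real.rpow_pos_of_pos hν _
  refine H ν T u p hν h R M δ (fun r => (2 * (1 - q / 2)) * (c₀ * ν ^ (1 - q) * β r ^ q)) hR hδ hM
    (continuousOn_const.mul (continuousOn_const.mul
      (hβ.rpow_const fun z hz => Or.inr (by linarith))))
    (fun t ht => by
      have := hβ0 t ht
      positivity)
    (fun s t hs hst ht => by
      rw [intervalIntegral.integral_const_mul, intervalIntegral.integral_const_mul]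
      have h1 := mul_le_mul_of_nonneg_left (hβC s t hs hst ht)
        (show 0 ≤ 2 * (1 - q / 2) * (c₀ * ν ^ (1 - q)) by positivity)
      have e1 : (ν * (t - s)) ^ (1 - q / 2) = ν ^ (1 - q) * ν ^ (q / 2) * (t - s) ^ (1 - q / 2) := by
        rw [Real.mul_rpow hν.le (by linarith), ← Real.rpow_add hν]
        congr 2
        ring
      rw [e1]
      calc 2 * (1 - q / 2) * (c₀ * ν ^ (1 - q) * ∫ r in s..t, β r ^ q)
          = 2 * (1 - q / 2) * (c₀ * ν ^ (1 - q)) * ∫ r in s..t, β r ^ q := by ring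
        _ ≤ _ := h1
        _ = _ := by ring)
    hMb
    (fun t ht x hx hx2 hx3 => cond_conv hq hν hy hq2 (hβ0 t ⟨ht.1.le, ht.2⟩) hx.le
      (hcond t ht x hx hx2 hx3))

/-- **Ancient solutions.** -/
theorem liouvilleM {ν : ℝ} (hν : 0 < ν) {u : ℝ → V → V} {p : ℝ → V → ℝ}
    (h : ∀ t₀ < 0, BSol ν (-t₀) (fun t => u (t₀ + t)) (fun t => p (t₀ + t))) {M : ℝ}
    (hM : ∀ t < 0, ∀ x, |circ (u t) x| ≤ M)
    (hcond : ∀ δ > 0, ∃ (q κ C : ℝ) (β : ℝ → ℝ), 1 ≤ q ∧ q < 2 ∧ (κ < q ∨ q = 1 ∧ κ ≤ 1) ∧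
      0 ≤ C ∧ ContinuousOn β (Iio 0) ∧ (∀ t < 0, 0 ≤ β t) ∧
      (∀ s t, s ≤ t → t < 0 →
        ∫ r in s..t, β r ^ q ≤ C * ν ^ (q / 2) * (t - s) ^ (1 - q / 2)) ∧
      ∀ t < 0, ∀ x, 0 < sg x → δ < |circ (u t) x| →
        -(κ * ν) - β t * √(sg x) ≤ x 0 * u t x 0 + x 1 * u t x 1) :
    ∀ t < 0, ∀ x, circ (u t) x = 0 := by
  refine ancientM hν h hM fun δ hδ => ?_
  obtain ⟨q, κ, C, β, hq, hq2, hκ, hC, hβ, hβ0, hβC, hcond⟩ := hcond δ hδ
  obtain ⟨c₀, hc₀, hy⟩ := young_q hq hκ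
  have ha : 0 < 1 - q / 2 := by linarith
  have hνq : 0 < ν ^ (1 - q) := Real.rpow_pos_of_pos hν _
  refine ⟨1 - q / 2, 2 * (1 - q / 2) * c₀ * C,
    fun r => (2 * (1 - q / 2)) * (c₀ * ν ^ (1 - q) * β r ^ q), ha, by linarith, by positivity,
    continuousOn_const.mul (continuousOn_const.mul
      (hβ.rpow_const fun z hz => Or.inr (by linarith))), ?_, ?_, ?_⟩
  · intro t ht
    have := hβ0 t ht
    positivity
  · intro s t hst ht
    rw [intervalIntegral.integral_const_mul, intervalIntegral.integral_const_mul]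
    have h1 := mul_le_mul_of_nonneg_left (hβC s t hst ht)
      (show 0 ≤ 2 * (1 - q / 2) * (c₀ * ν ^ (1 - q)) by positivity)
    have e1 : (ν * (t - s)) ^ (1 - q / 2) = ν ^ (1 - q) * ν ^ (q / 2) * (t - s) ^ (1 - q / 2) := by
      rw [Real.mul_rpow hν.le (by linarith), ← Real.rpow_add hν]
      congr 2
      ring
    rw [e1]
    calc 2 * (1 - q / 2) * (c₀ * ν ^ (1 - q) * ∫ r in s..t, β r ^ q)
        = 2 * (1 - q / 2) * (c₀ * ν ^ (1 - q)) * ∫ r in s..t, β r ^ q := by ring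
      _ ≤ _ := h1
      _ = _ := by ring
  · intro t ht x hx hxδ
    exact cond_conv hq hν hy hq2 (hβ0 t ht) hx.le (hcond t ht x hx hxδ)

end Pool.Agent.X96.AX
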