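import Pool.Agent.X96.AX.Rad2
import Pool.Agent.X96.AX.Mor5

/-!
Axisymmetric flows (helper96): one-sided bounds of the radial velocity from one-sided bounds of the
radial derivative of the pressure.
-/

set_option autoImplicit false

open MeasureTheory Set Metric Filter Topology
open scoped ContDiff

namespace Pool.Agent.X96.AX

open H459R3.NS W221.NS Pool.Agent.TH305.DR Pool.Agent.TH305.AX

variable {ν T : ℝ} {u : ℝ → V → V} {p : ℝ → V → ℝ}

/-- the algebra at a touching point -/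
theorem alg_rad {ν c c' s g G P E L U η : ℝ} (hs : 0 < s)
    (hE : 0 ≤ E) (hη : 0 ≤ η) (hU : 0 ≤ U) (hL : 2 * U ≤ L) (hgU : g ≤ 2 * s * U)
    (hP : P ≤ (g * (g - c * s) + G ^ 2) / s ^ 2 + ν * c / s + c' * s) :
    4 * ν * s ^ 2 * (-c / (4 * s ^ 3)) - 2 * (-g) * (c / (2 * s) + η * E)
      - (g ^ 2 + G ^ 2) / s ^ 2 + P ≤ c' * s + η * (L * E) * (1 + s ^ 2) := by
  have e1 : 4 * ν * s ^ 2 * (-c / (4 * s ^ 3)) = -(ν * c / s) := by
    field_simp
  have e2 : (g * (g - c * s) + G ^ 2) / s ^ 2 - (g ^ 2 + G ^ 2) / s ^ 2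
      = -(g * c / s) := by
    field_simp
    ring
  have e3 : 2 * (-g) * (c / (2 * s) + η * E) = -(g * c / s) - 2 * g * (η * E) := by
    field_simp
    ring
  have h2 : 2 * g * (η * E) ≤ η * (L * E) * (1 + s ^ 2) := by
    have h3 : g ≤ U * (1 + s ^ 2) := by nlinarith [sq_nonneg (1 - s)]
    have h4 : 0 ≤ η * E := by positivity
    calc 2 * g * (η * E) ≤ 2 * (U * (1 + s ^ 2)) * (η * E) := by gcongr
      _ = 2 * U * (η * E) * (1 + s ^ 2) := by ring
      _ ≤ L * (η * E) * (1 + s ^ 2) := by gcongr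
      _ = _ := by ring
  rw [e1, e3]
  linarith

/-- the barrier has a smooth majorant -/
theorem maj_rad {κ ν η L : ℝ} {c c' : ℝ → ℝ} {t σ : ℝ} (hσ : 0 < σ)
    (hc : HasDerivAt c (c' t) t) :
    Maj (fun t r => κ * ν + c t * √r + η * Real.exp (L * t) * (1 + r)) t σ
      (fun r => κ * ν + c t * √r + η * Real.exp (L * t) * (1 + r))
      (fun r => c t / (2 * √r) + η * Real.exp (L * t))
      (-c t / (4 * √σ ^ 3)) (c' t * √σ + η * (L * Real.exp (L * t)) * (1 + σ))
      (fun τ => κ * ν + c τ * √σ + η * Real.exp (L * τ) * (1 + σ)) where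
  smooth := by
    have h1 : ContDiffAt ℝ 2 (fun r : ℝ => √r) σ := Real.contDiffAt_sqrt hσ.ne'
    have h2 : ContDiffAt ℝ 2 (fun r : ℝ => 1 + r) σ := contDiffAt_const.add contDiffAt_id
    exact (contDiffAt_const.add (contDiffAt_const.mul h1)).add (contDiffAt_const.mul h2)
  hd1 := by
    filter_upwards [lt_mem_nhds hσ] with r hr
    have h1 := (Real.hasDerivAt_sqrt hr.ne').const_mul (c t)
    have h2 := ((hasDerivAt_id r).const_add (1 : ℝ)).const_mul (η * Real.exp (L * t))
    have h3 := (h1.const_add (κ * ν)).add h2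
    refine h3.congr_deriv ?_
    field_simp
  hd2 := by
    have hs : 0 < √σ := Real.sqrt_pos.2 hσ
    have h1 := (Real.hasDerivAt_sqrt hσ.ne').const_mul 2
    have h2 := (h1.inv (by positivity)).const_mul (c t)
    have h3 := h2.add_const (η * Real.exp (L * t))
    refine (h3.congr_deriv ?_).congr_of_eventuallyEq (Eventually.of_forall fun r => ?_)
    · field_simp
      norm_num
    · simp only [div_eq_mul_inv]
      rfl
  le := Eventually.of_forall fun r => le_rfl
  eq := rfl
  tle := Eventually.of_forall fun r => le_rfl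
  teq := rfl
  td := by
    have h1 : HasDerivAt (fun τ : ℝ => L * τ) L t := by
      simpa using (hasDerivAt_id t).const_mul L
    have h2 := ((h1.exp.const_mul η).mul_const (1 + σ))
    have h3 := ((hc.mul_const (√σ)).const_add (κ * ν)).add h2
    refine h3.congr_deriv ?_
    ring

/-- **Inflow bounds from the pressure, in a cylinder.** -/
theorem inflow_local (hν : 0 < ν) (h : BSol ν T u p) {κ R : ℝ} (hκ : 0 ≤ κ) (hR : 0 < R)
    {c c' : ℝ → ℝ} (hc0 : ∀ t ∈ Ico 0 T, 0 ≤ c t) (hcc : ContinuousOn c (Ico 0 T))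
    (hcd : ∀ t ∈ Ioo 0 T, HasDerivAt c (c' t) t)
    (hin : ∀ x, sg x ≤ R ^ 2 → -(κ * ν) - c 0 * √(sg x) ≤ rad (u 0) x)
    (hlat : ∀ t ∈ Ico 0 T, ∀ x, sg x = R ^ 2 → -(κ * ν) - c t * R ≤ rad (u t) x)
    (hp : ∀ t ∈ Ioo 0 T, ∀ x, 0 < sg x → sg x < R ^ 2 →
      rad (u t) x < -(κ * ν) - c t * √(sg x) →
      x 0 * pd 0 (p t) x + x 1 * pd 1 (p t) x
        ≤ (rad (u t) x * (rad (u t) x + c t * √(sg x)) + circ (u t) x ^ 2) / sg x
          + ν * c t / √(sg x) + c' t * √(sg x)) :
    ∀ t ∈ Ico 0 T, ∀ x, sg x ≤ R ^ 2 → -(κ * ν) - c t * √(sg x) ≤ rad (u t) x := by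
  have hΦ := cmpR (S := R ^ 2) (Φ := fun t r => κ * ν + c t * √r + 0 * Real.exp (0 * t) * (1 + r))
    hν h (fun t ht σ hσ => by
      have h1 := hc0 t ht
      have h2 := hσ.1
      positivity)
    (by
      have h1 : ContinuousOn (fun z : ℝ × ℝ => c z.1) (Ico 0 T ×ˢ Icc 0 (R ^ 2)) :=
        hcc.comp continuous_fst.continuousOn fun z hz => hz.1
      have h2 : Continuous fun z : ℝ × ℝ => √z.2 := by fun_prop
      have h3 : Continuous fun z : ℝ × ℝ => 0 * Real.exp (0 * z.1) * (1 + z.2) := by fun_prop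
      exact (continuousOn_const.add (h1.mul h2.continuousOn)).add h3.continuousOn)
    (fun t ht x hx => by
      have h1 := hlat t ht x hx
      rw [Real.sqrt_sq hR.le]
      linarith)
    (fun x hx => by
      have h1 := hin x hx
      linarith)
    (fun t ht x hx hxR hrad => by
      refine ⟨_, _, _, _, _, maj_rad (κ := κ) (ν := ν) (η := 0) (L := 0) hx (hcd t ht), ?_⟩
      have hs : 0 < √(sg x) := Real.sqrt_pos.2 hx
      have hs2 : √(sg x) ^ 2 = sg x := Real.sq_sqrt hx.le
      have hrad' : rad (u t) x < -(κ * ν) - c t * √(sg x) := by linarith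
      have h1 := hp t ht x hx hxR hrad'
      have h2 := rad_le (u t) x
      have h3 := neg_abs_le (rad (u t) x)
      have h4 := alg_rad (E := 1) (L := 2 * ‖u t x‖) (U := ‖u t x‖) (η := 0)
        (g := -rad (u t) x) (G := circ (u t) x) (s := √(sg x))
        (P := x 0 * pd 0 (p t) x + x 1 * pd 1 (p t) x)
        hs zero_le_one le_rfl (norm_nonneg _) le_rfl
        (by linarith) (by
          rw [hs2]
          have e : -rad (u t) x * (-rad (u t) x - c t * √(sg x))
            = rad (u t) x * (rad (u t) x + c t * √(sg x)) := by ring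
          rw [e]
          exact h1)
      rw [hs2, neg_neg, neg_sq] at h4
      simpa using h4)
  intro t ht x hx
  have := hΦ t ht x hx
  linarith

/-- **Inflow bounds from the pressure, in the whole space.** -/
theorem inflow_global (hν : 0 < ν) (h : BSol ν T u p) {κ : ℝ} (hκ : 0 ≤ κ)
    {c c' : ℝ → ℝ} (hc0 : ∀ t ∈ Ico 0 T, 0 ≤ c t) (hcc : ContinuousOn c (Ico 0 T))
    (hcd : ∀ t ∈ Ioo 0 T, HasDerivAt c (c' t) t)
    (hin : ∀ x, -(κ * ν) - c 0 * √(sg x) ≤ rad (u 0) x)
    (hp : ∀ t ∈ Ioo 0 T, ∀ x, 0 < sg x → rad (u t) x < -(κ * ν) - c t * √(sg x) →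
      x 0 * pd 0 (p t) x + x 1 * pd 1 (p t) x
        ≤ (rad (u t) x * (rad (u t) x + c t * √(sg x)) + circ (u t) x ^ 2) / sg x
          + ν * c t / √(sg x) + c' t * √(sg x)) :
    ∀ t ∈ Ico 0 T, ∀ x, -(κ * ν) - c t * √(sg x) ≤ rad (u t) x := by
  intro t₀ ht₀ x₀
  -- restriction to a shorter interval, where the velocity is bounded
  obtain ⟨T', hT1, hT2⟩ : ∃ T', t₀ < T' ∧ T' < T := exists_between ht₀.2
  obtain ⟨U, hU0, hU⟩ := h.u_bdd hT2
  have h' : BSol ν T' u p :=
    { smooth_u := h.smooth_u.mono (prod_mono (Ico_subset_Ico_right hT2.le) le_rfl)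
      smooth_p := h.smooth_p.mono (prod_mono (Ioo_subset_Ioo_right hT2.le) le_rfl)
      divfree := fun t ht => h.divfree t ⟨ht.1, ht.2.trans hT2⟩
      momentum := fun t ht => h.momentum t ⟨ht.1, ht.2.trans hT2⟩
      axi := fun t ht => h.axi t ⟨ht.1, ht.2.trans hT2⟩
      bdd := fun T'' hT'' => h.bdd T'' (hT''.trans hT2) }
  refine le_of_forall_pos_le_add fun ε hε => ?_
  set L := 2 * U with hL
  set η := ε / (Real.exp (L * t₀) * (1 + sg x₀)) with hη
  have hx0 := sg_nonneg x₀
  have hη0 : 0 < η := by positivity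
  set R := max (2 * U / η) (√(sg x₀)) + 1 with hR
  have hR1 : 2 * U / η ≤ R := by rw [hR]; linarith [le_max_left (2 * U / η) (√(sg x₀))]
  have hR2 : √(sg x₀) ≤ R := by rw [hR]; linarith [le_max_right (2 * U / η) (√(sg x₀))]
  have hR0 : 0 < R := by
    have : 0 ≤ √(sg x₀) := Real.sqrt_nonneg _
    rw [hR]
    linarith [le_max_right (2 * U / η) (√(sg x₀))]
  have hIT : ∀ t ∈ Ico 0 T', t ∈ Ico 0 T := fun t ht => ⟨ht.1, ht.2.trans hT2⟩
  have hradU : ∀ t ∈ Ico 0 T', ∀ x, |rad (u t) x| ≤ 2 * √(sg x) * U := fun t ht x =>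
    (rad_le (u t) x).trans (by
      have := hU t ⟨ht.1, ht.2.le⟩ x
      gcongr)
  have hΦ := cmpR (S := R ^ 2) (Φ := fun t r => κ * ν + c t * √r + η * Real.exp (L * t) * (1 + r))
    hν h' (fun t ht σ hσ => by
      have h1 := hc0 t (hIT t ht)
      have h2 := hσ.1
      positivity)
    (by
      have h1 : ContinuousOn (fun z : ℝ × ℝ => c z.1) (Ico 0 T' ×ˢ Icc 0 (R ^ 2)) :=
        hcc.comp continuous_fst.continuousOn fun z hz => hIT _ hz.1
      have h2 : Continuous fun z : ℝ × ℝ => √z.2 := by fun_prop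
      have h3 : Continuous fun z : ℝ × ℝ => η * Real.exp (L * z.1) * (1 + z.2) := by fun_prop
      exact (continuousOn_const.add (h1.mul h2.continuousOn)).add h3.continuousOn)
    (fun t ht x hx => by
      have h1 := hradU t ht x
      have h2 := neg_abs_le (rad (u t) x)
      have h3 := hc0 t (hIT t ht)
      rw [hx, Real.sqrt_sq hR0.le] at h1
      rw [Real.sqrt_sq hR0.le]
      have h4 : 1 ≤ Real.exp (L * t) := Real.one_le_exp (mul_nonneg (by positivity) ht.1)
      have h5 : 2 * U ≤ R * η := by rwa [div_le_iff₀ hη0] at hR1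
      have h6 : 2 * R * U ≤ η * (1 + R ^ 2) := by nlinarith
      have h7 : η * (1 + R ^ 2) ≤ η * Real.exp (L * t) * (1 + R ^ 2) := by
        have : η * 1 ≤ η * Real.exp (L * t) := by gcongr
        have h8 : 0 ≤ 1 + R ^ 2 := by positivity
        nlinarith
      have h9 : 0 ≤ κ * ν := by positivity
      have h10 : 0 ≤ c t * R := by positivity
      linarith)
    (fun x hx => by
      have h1 := hin x
      have h2 : 0 ≤ η * Real.exp (L * 0) * (1 + sg x) := by
        have := sg_nonneg x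
        positivity
      linarith)
    (fun t ht x hx hxR hrad => by
      have htT : t ∈ Ioo 0 T := ⟨ht.1, ht.2.trans hT2⟩
      refine ⟨_, _, _, _, _, maj_rad (κ := κ) (ν := ν) (η := η) (L := L) hx (hcd t htT), ?_⟩
      have hs : 0 < √(sg x) := Real.sqrt_pos.2 hx
      have hs2 : √(sg x) ^ 2 = sg x := Real.sq_sqrt hx.le
      have h0 : 0 ≤ η * Real.exp (L * t) * (1 + sg x) := by positivity
      have hrad' : rad (u t) x < -(κ * ν) - c t * √(sg x) := by linarith
      have h1 := hp t htT x hx hrad'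
      have h2 := hradU t ⟨ht.1.le, ht.2⟩ x
      have h3 := neg_abs_le (rad (u t) x)
      have h4 := alg_rad (E := Real.exp (L * t)) (L := L) (U := U) (η := η)
        (g := -rad (u t) x) (G := circ (u t) x) (s := √(sg x))
        (P := x 0 * pd 0 (p t) x + x 1 * pd 1 (p t) x)
        hs (Real.exp_pos _).le hη0.le hU0 le_rfl
        (by linarith) (by
          rw [hs2]
          have e : -rad (u t) x * (-rad (u t) x - c t * √(sg x))
            = rad (u t) x * (rad (u t) x + c t * √(sg x)) := by ring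
          rw [e]
          exact h1)
      rw [hs2, neg_neg, neg_sq] at h4
      exact h4)
  have h1 := hΦ t₀ ⟨ht₀.1, hT1⟩ x₀ (by
    rw [← Real.sqrt_le_left hR0.le]
    exact hR2)
  have h2 : η * Real.exp (L * t₀) * (1 + sg x₀) = ε := by
    rw [hη, mul_assoc, div_mul_cancel₀ _ (by positivity)]
  rw [h2] at h1
  linarith

end Pool.Agent.X96.AX
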