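import Pool.Agent.X96.AX.Mor3

/-!
Axisymmetric flows (helper96): one-sided conditions on the radial velocity and the scale function
of a diffusion; the barrier.
-/

set_option autoImplicit false

open MeasureTheory Set Metric Filter Topology
open scoped ContDiff

namespace Pool.Agent.X96.AX

open H459R3.NS W221.NS Pool.Agent.TH305.DR Pool.Agent.TH305.AX

variable {ν T : ℝ} {u : ℝ → V → V} {p : ℝ → V → ℝ}

/-- `2 z - z ^ 2` for `z ≤ 1` and `1` for `z ≥ 1`. -/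
noncomputable def gq (z : ℝ) : ℝ := 1 - (max (1 - z) 0) ^ 2

lemma gq_cont : Continuous gq := by unfold gq; fun_prop

lemma gq_le (z : ℝ) : gq z ≤ 1 := by
  unfold gq
  have := sq_nonneg (max (1 - z) 0)
  linarith

lemma gq_one {z : ℝ} (hz : 1 ≤ z) : gq z = 1 := by
  unfold gq
  rw [max_eq_right (by linarith)]
  norm_num

lemma gq_lt {z : ℝ} (hz : z ≤ 1) : gq z = 2 * z - z ^ 2 := by
  unfold gq
  rw [max_eq_left (by linarith)]
  ring

lemma gq_ge {z : ℝ} (hz0 : 0 ≤ z) (hz : z ≤ 1) : z ≤ gq z := by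
  rw [gq_lt hz]
  nlinarith

lemma gq_nn {z : ℝ} (hz0 : 0 ≤ z) : 0 ≤ gq z := by
  rcases le_total z 1 with h | h
  · exact hz0.trans (gq_ge hz0 h)
  · rw [gq_one h]; norm_num

lemma gq_two {z : ℝ} (hz0 : 0 ≤ z) : gq z ≤ 2 * z := by
  rcases le_total z 1 with h | h
  · rw [gq_lt h]; nlinarith
  · have := gq_le z; linarith

/-- The assumptions on the weight `E`. -/
structure Wgt (r : ℝ) (κ E : ℝ → ℝ) : Prop where
  hr : 0 < r
  pos : ∀ ρ ∈ Ioc 0 r, 0 < E ρ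
  hd : ∀ ρ ∈ Ioo 0 r, HasDerivAt E (-((κ ρ - 1) / ρ * E ρ)) ρ
  cont : ContinuousOn κ (Ioo 0 r)
  anti : ∀ ρ ∈ Ioc 0 r, ∀ ρ' ∈ Ioc 0 r, ρ' ≤ ρ → E ρ ≤ E ρ'
  int : IntervalIntegrable E volume 0 r

namespace Wgt
variable {r : ℝ} {κ E : ℝ → ℝ}

lemma int' (h : Wgt r κ E) {ρ : ℝ} (hρ : ρ ∈ Icc 0 r) : IntervalIntegrable E volume 0 ρ :=
  h.int.mono_set (by
    rw [uIcc_of_le hρ.1, uIcc_of_le h.hr.le]
    exact Icc_subset_Icc_right hρ.2)

lemma psi_ge (h : Wgt r κ E) {ρ : ℝ} (hρ : ρ ∈ Icc 0 r) : ρ * E r ≤ ∫ s in (0 : ℝ)..ρ, E s := by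
  have h1 : ∫ s in (0 : ℝ)..ρ, E r = ρ * E r := by
    rw [intervalIntegral.integral_const, sub_zero, smul_eq_mul]
  rw [← h1]
  apply intervalIntegral.integral_mono_on_of_le_Ioo hρ.1 (by simp) (h.int' hρ)
  intro s hs
  exact h.anti r ⟨h.hr, le_rfl⟩ s ⟨hs.1, hs.2.le.trans hρ.2⟩ (hs.2.le.trans hρ.2)

lemma psi_pos (h : Wgt r κ E) {ρ : ℝ} (hρ : ρ ∈ Ioc 0 r) : 0 < ∫ s in (0 : ℝ)..ρ, E s :=
  (mul_pos hρ.1 (h.pos r ⟨h.hr, le_rfl⟩)).trans_le (h.psi_ge ⟨hρ.1.le, hρ.2⟩)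

lemma psi_nn (h : Wgt r κ E) {ρ : ℝ} (hρ : ρ ∈ Icc 0 r) : 0 ≤ ∫ s in (0 : ℝ)..ρ, E s :=
  (mul_nonneg hρ.1 (h.pos r ⟨h.hr, le_rfl⟩).le).trans (h.psi_ge hρ)

lemma psi_hd (h : Wgt r κ E) {ρ : ℝ} (hρ : ρ ∈ Ioo 0 r) :
    HasDerivAt (fun ρ => ∫ s in (0 : ℝ)..ρ, E s) (E ρ) ρ := by
  have hc : ContinuousOn E (Ioo 0 r) := fun s hs => (h.hd s hs).continuousAt.continuousWithinAt
  refine intervalIntegral.integral_hasDerivAt_right (h.int' ⟨hρ.1.le, hρ.2.le⟩) ?_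
    (h.hd ρ hρ).continuousAt
  exact hc.stronglyMeasurableAtFilter isOpen_Ioo ρ hρ

lemma psi_cont (h : Wgt r κ E) : ContinuousOn (fun ρ => ∫ s in (0 : ℝ)..ρ, E s) (Icc 0 r) := by
  have h1 := intervalIntegral.continuousOn_primitive_interval (a := 0) (b := r) (f := E)
    (μ := volume) (by
      rw [uIcc_of_le h.hr.le]
      have := h.int
      rw [intervalIntegrable_iff_integrableOn_Ioc_of_le h.hr.le] at this
      rwa [integrableOn_Icc_iff_integrableOn_Ioc])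
  rwa [uIcc_of_le h.hr.le] at h1

lemma psi_smooth (h : Wgt r κ E) {ρ : ℝ} (hρ : ρ ∈ Ioo 0 r) :
    ContDiffAt ℝ 2 (fun ρ => ∫ s in (0 : ℝ)..ρ, E s) ρ := by
  have hcE : ContinuousOn E (Ioo 0 r) := fun s hs => (h.hd s hs).continuousAt.continuousWithinAt
  have h1 : ContDiffOn ℝ 1 E (Ioo 0 r) := by
    rw [show (1 : WithTop ℕ∞) = 0 + 1 from rfl, contDiffOn_succ_iff_deriv_of_isOpen isOpen_Ioo]
    refine ⟨fun s hs => (h.hd s hs).differentiableAt.differentiableWithinAt, by simp, ?_⟩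
    rw [contDiffOn_zero]
    have h2 : ContinuousOn (fun s => -((κ s - 1) / s * E s)) (Ioo 0 r) :=
      (((h.cont.sub continuousOn_const).div continuousOn_id fun s hs => hs.1.ne').mul hcE).neg
    exact h2.congr fun s hs => (h.hd s hs).deriv
  have h3 : ContDiffOn ℝ 2 (fun ρ => ∫ s in (0 : ℝ)..ρ, E s) (Ioo 0 r) := by
    rw [show (2 : WithTop ℕ∞) = 1 + 1 from rfl, contDiffOn_succ_iff_deriv_of_isOpen isOpen_Ioo]
    refine ⟨fun s hs => (h.psi_hd hs).differentiableAt.differentiableWithinAt, by simp, ?_⟩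
    exact h1.congr fun s hs => (h.psi_hd hs).deriv
  exact h3.contDiffAt (isOpen_Ioo.mem_nhds hρ)

/-- In the variable `σ = ρ ^ 2`. -/
lemma comp_hd (h : Wgt r κ E) {σ : ℝ} (hσ : 0 < σ) (hσr : √σ < r) :
    HasDerivAt (fun y => ∫ s in (0 : ℝ)..√y, E s) (E √σ / (2 * √σ)) σ := by
  have h1 := (h.psi_hd ⟨Real.sqrt_pos.2 hσ, hσr⟩).comp σ (Real.hasDerivAt_sqrt hσ.ne')
  refine h1.congr_deriv ?_
  ring

lemma comp_hd2 (h : Wgt r κ E) {σ : ℝ} (hσ : 0 < σ) (hσr : √σ < r) :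
    HasDerivAt (fun y => E √y / (2 * √y)) (-(κ √σ * E √σ / (4 * √σ ^ 3))) σ := by
  have h0 : 0 < √σ := Real.sqrt_pos.2 hσ
  have hs := Real.hasDerivAt_sqrt hσ.ne'
  have h1 := (h.hd (√σ) ⟨h0, hσr⟩).comp σ hs
  have h2 := h1.fun_div (hs.const_mul 2) (by positivity)
  refine h2.congr_deriv ?_
  simp only [Function.comp]
  field_simp
  ring

end Wgt

/-- **The barrier argument.** -/
theorem feller_core (hν : 0 < ν) (h : BSol ν T u p) {r M δ : ℝ} (hδ : 0 ≤ δ) (hM : δ < M)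
    {κ E : ℝ → ℝ} (hE : Wgt r κ E)
    (hMb : ∀ t ∈ Ico 0 T, ∀ x, sg x ≤ r ^ 2 → |circ (u t) x| ≤ M)
    (hcond : ∀ t ∈ Ioo 0 T, ∀ x, 0 < sg x → sg x < r ^ 2 → δ < |circ (u t) x| →
      -(κ √(sg x) * ν) ≤ x 0 * u t x 0 + x 1 * u t x 1)
    {η U : ℝ} (hη : 0 < η) (hT : 0 < T) (hU : ∀ x, ‖u 0 x‖ ≤ U)
    (hηU : 2 * U * √(8 * ν * η) ≤ M - δ)
    (hTr : 8 * ν * E r ^ 2 * (T + η) ≤ (∫ s in (0 : ℝ)..r, E s) ^ 2) :
    ∀ t ∈ Ico 0 T, ∀ x, sg x ≤ r ^ 2 → |circ (u t) x|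
      ≤ δ + (M - δ) * gq ((∫ s in (0 : ℝ)..√(sg x), E s) / √(8 * ν * E r ^ 2 * (t + η))) := by
  have hr := hE.hr
  obtain ⟨e, he⟩ : ∃ e : ℝ, e = E r := ⟨_, rfl⟩
  have he0 : 0 < e := by rw [he]; exact hE.pos r ⟨hr, le_rfl⟩
  rw [← he] at hTr ⊢
  obtain ⟨ψ, hψ⟩ : ∃ ψ : ℝ → ℝ, ψ = fun ρ => ∫ s in (0 : ℝ)..ρ, E s := ⟨_, rfl⟩
  have hψ' : ∀ ρ, (∫ s in (0 : ℝ)..ρ, E s) = ψ ρ := fun ρ => by rw [hψ]
  simp only [hψ'] at hTr ⊢
  have hψr : 0 < ψ r := by rw [hψ]; exact hE.psi_pos ⟨hr, le_rfl⟩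
  have hψnn : ∀ ρ ∈ Icc 0 r, 0 ≤ ψ ρ := fun ρ hρ => by rw [hψ]; exact hE.psi_nn hρ
  have hm : 0 < M - δ := by linarith
  obtain ⟨s, hs⟩ : ∃ s : ℝ → ℝ, s = fun t => √(8 * ν * e ^ 2 * (t + η)) := ⟨_, rfl⟩
  have hs' : ∀ t, √(8 * ν * e ^ 2 * (t + η)) = s t := fun t => by rw [hs]
  simp only [hs']
  have hsp : ∀ t ∈ Ico 0 T, 0 < s t := fun t ht => by
    rw [hs]
    have := ht.1
    exact Real.sqrt_pos.2 (by positivity)
  have hsψ : ∀ t ∈ Ico 0 T, s t ≤ ψ r := fun t ht => by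
    rw [hs]
    refine Real.sqrt_le_iff.2 ⟨hψr.le, le_trans ?_ hTr⟩
    have := ht.2
    gcongr
  have hsq : ∀ x : V, sg x ≤ r ^ 2 → √(sg x) ∈ Icc 0 r := fun x hx =>
    ⟨Real.sqrt_nonneg _, Real.sqrt_le_iff.2 ⟨hr.le, hx⟩⟩
  have hU0 : 0 ≤ U := (norm_nonneg _).trans (hU 0)
  refine cmpL hν h (S := r ^ 2) (by positivity)
    (Φ := fun t σ => δ + (M - δ) * gq (ψ √σ / s t)) ?_ ?_ ?_ ?_ ?_
  · intro t ht σ hσ
    have h1 : 0 ≤ ψ √σ := hψnn _ ⟨Real.sqrt_nonneg _, Real.sqrt_le_iff.2 ⟨hr.le, hσ.2⟩⟩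
    have h2 := gq_nn (div_nonneg h1 (hsp t ht).le)
    have := mul_nonneg hm.le h2
    show 0 ≤ δ + (M - δ) * gq (ψ √σ / s t)
    linarith
  · refine continuousOn_const.add (continuousOn_const.mul (gq_cont.comp_continuousOn ?_))
    have c1 : ContinuousOn (fun z : ℝ × ℝ => ψ √z.2) (Ico 0 T ×ˢ Icc 0 (r ^ 2)) := by
      have h1 : ContinuousOn ψ (Icc 0 r) := by rw [hψ]; exact hE.psi_cont
      exact h1.comp (Real.continuous_sqrt.comp continuous_snd).continuousOn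
        fun z hz => ⟨Real.sqrt_nonneg _, Real.sqrt_le_iff.2 ⟨hr.le, hz.2.2⟩⟩
    have c2 : ContinuousOn (fun z : ℝ × ℝ => s z.1) (Ico 0 T ×ˢ Icc 0 (r ^ 2)) := by
      rw [hs]
      exact (Real.continuous_sqrt.comp (by fun_prop)).continuousOn
    exact c1.div c2 fun z hz => (hsp z.1 hz.1).ne'
  · intro t ht x hx
    have h1 := hMb t ht x hx.le
    show |circ (u t) x| ≤ δ + (M - δ) * gq (ψ √(r ^ 2) / s t)
    rw [Real.sqrt_sq hr.le, gq_one (by rw [one_le_div (hsp t ht)]; exact hsψ t ht)]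
    linarith
  · intro x hx
    show |circ (u 0) x| ≤ δ + (M - δ) * gq (ψ √(sg x) / s 0)
    have hT0 : (0 : ℝ) ∈ Ico 0 T := ⟨le_rfl, hT⟩
    have hs0 := hsp 0 hT0
    have hz0 : 0 ≤ ψ √(sg x) / s 0 := div_nonneg (hψnn _ (hsq x hx)) hs0.le
    rcases le_total 1 (ψ √(sg x) / s 0) with h1 | h1
    · rw [gq_one h1]
      have := hMb 0 hT0 x hx
      linarith
    · have h2 := mul_le_mul_of_nonneg_left (gq_ge hz0 h1) hm.le
      have h3 : √(sg x) * e ≤ ψ √(sg x) := by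
        rw [hψ, he]
        exact hE.psi_ge (hsq x hx)
      have h4 : s 0 = e * √(8 * ν * η) := by
        rw [hs]
        show √(8 * ν * e ^ 2 * (0 + η)) = _
        rw [show 8 * ν * e ^ 2 * (0 + η) = e ^ 2 * (8 * ν * η) by ring,
          Real.sqrt_mul (by positivity), Real.sqrt_sq he0.le]
      have h5 : |circ (u 0) x| ≤ (M - δ) * (ψ √(sg x) / s 0) := by
        calc |circ (u 0) x| ≤ 2 * √(sg x) * ‖u 0 x‖ := circ_le _ _
          _ ≤ 2 * √(sg x) * U := by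
            have := hU x
            gcongr
          _ = 2 * U * √(8 * ν * η) * (√(sg x) * e / s 0) := by
            rw [h4]
            have : 0 < √(8 * ν * η) := Real.sqrt_pos.2 (by positivity)
            field_simp
          _ ≤ (M - δ) * (ψ √(sg x) / s 0) := by gcongr
      linarith
  · intro t ht x hx hxr hbig
    have htI : t ∈ Ico 0 T := ⟨ht.1.le, ht.2⟩
    have hst := hsp t htI
    obtain ⟨σ, hσ⟩ : ∃ σ : ℝ, σ = sg x := ⟨_, rfl⟩
    obtain ⟨ρ, hρ⟩ : ∃ ρ : ℝ, ρ = √σ := ⟨_, rfl⟩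
    have hσ0 : 0 < σ := by rw [hσ]; exact hx
    have hρ0 : 0 < ρ := by rw [hρ]; exact Real.sqrt_pos.2 hσ0
    have hρ2 : σ = ρ ^ 2 := by rw [hρ, Real.sq_sqrt hσ0.le]
    have hρr : ρ < r := by
      have h1 : ρ ^ 2 < r ^ 2 := by rw [← hρ2, hσ]; exact hxr
      exact lt_of_pow_lt_pow_left₀ 2 hr.le h1
    have hbig' : δ + (M - δ) * gq (ψ √(sg x) / s t) < |circ (u t) x| := hbig
    rw [← hσ, ← hρ] at hbig'
    obtain ⟨z, hz⟩ : ∃ z : ℝ, z = ψ ρ / s t := ⟨_, rfl⟩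
    rw [← hz] at hbig'
    have hz0 : 0 ≤ z := by rw [hz]; exact div_nonneg (hψnn ρ ⟨hρ0.le, hρr.le⟩) hst.le
    have hz1 : z < 1 := by
      by_contra hcon
      push Not at hcon
      rw [gq_one hcon] at hbig'
      have := hMb t htI x hxr.le
      linarith
    have hΓ : δ < |circ (u t) x| := by
      have := mul_nonneg hm.le (gq_nn hz0)
      linarith
    have hw := hcond t ht x hx hxr hΓ
    rw [← hσ, ← hρ] at hw
    obtain ⟨w, hwe⟩ : ∃ w : ℝ, w = x 0 * u t x 0 + x 1 * u t x 1 := ⟨_, rfl⟩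
    rw [← hwe] at hw ⊢
    rw [← hσ]
    have hσr : √σ < r := by rw [← hρ]; exact hρr
    have hd1 : ∀ᶠ y in 𝓝 σ, 0 < y ∧ √y < r := by
      have c : ContinuousAt (fun y : ℝ => √y) σ := Real.continuous_sqrt.continuousAt
      exact (lt_mem_nhds hσ0).and (c.eventually (gt_mem_nhds hσr))
    have hψd : ∀ y, 0 < y ∧ √y < r → HasDerivAt (fun y => ψ √y) (E √y / (2 * √y)) y := by
      intro y hy
      rw [hψ]
      exact hE.comp_hd hy.1 hy.2
    have hψσ := hψd σ ⟨hσ0, hσr⟩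
    have hEpos : 0 < E ρ := hE.pos ρ ⟨hρ0, hρr.le⟩
    have hEe : e ≤ E ρ := by rw [he]; exact hE.anti r ⟨hr, le_rfl⟩ ρ ⟨hρ0, hρr.le⟩ hρr.le
    have hev1 : ∀ᶠ y in 𝓝 σ, ψ √y / s t < 1 := by
      have c : ContinuousAt (fun y => ψ √y / s t) σ := hψσ.continuousAt.div_const _
      refine c.eventually (gt_mem_nhds ?_)
      show ψ √σ / s t < 1
      rw [← hρ, ← hz]
      exact hz1
    have hsd : HasDerivAt s (4 * ν * e ^ 2 / s t) t := by
      have h1 : HasDerivAt (fun t : ℝ => 8 * ν * e ^ 2 * (t + η)) (8 * ν * e ^ 2) t := by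
        simpa using ((hasDerivAt_id t).add_const η).const_mul (8 * ν * e ^ 2)
      have h2 := h1.sqrt (by have := ht.1; positivity)
      rw [hs]
      refine h2.congr_deriv ?_
      ring
    have hzd : HasDerivAt (fun τ => ψ ρ / s τ) (-(z * (4 * ν * e ^ 2 / s t ^ 2))) t := by
      refine ((hsd.fun_inv hst.ne').const_mul (ψ ρ)).congr_deriv ?_ |>.congr_of_eventuallyEq ?_
      · rw [hz]; field_simp
      · exact Filter.Eventually.of_forall fun τ => div_eq_mul_inv _ _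
    have hev2 : ∀ᶠ τ in 𝓝[<] t, ψ ρ / s τ < 1 := by
      refine (hzd.continuousAt.eventually (gt_mem_nhds ?_)).filter_mono nhdsWithin_le_nhds
      show ψ ρ / s t < 1
      rw [← hz]
      exact hz1
    refine ⟨fun y => δ + (M - δ) * (2 * (ψ √y / s t) - (ψ √y / s t) ^ 2),
      fun y => (M - δ) * ((2 - 2 * (ψ √y / s t)) * (E √y / (2 * √y) / s t)),
      (M - δ) * ((2 - 2 * z) * (-(κ ρ * E ρ / (4 * ρ ^ 3)) / s t)
        - 2 * (E ρ / (2 * ρ) / s t) * (E ρ / (2 * ρ) / s t)),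
      (M - δ) * ((2 - 2 * z) * (-(z * (4 * ν * e ^ 2 / s t ^ 2)))),
      fun τ => δ + (M - δ) * (2 * (ψ ρ / s τ) - (ψ ρ / s τ) ^ 2), ?_, ?_⟩
    · refine ⟨?_, ?_, ?_, ?_, ?_, ?_, ?_, ?_⟩
      · have h1 : ContDiffAt ℝ 2 (fun y => ψ √y) σ := by
          rw [hψ]
          exact (hE.psi_smooth ⟨Real.sqrt_pos.2 hσ0, hσr⟩).comp σ (Real.contDiffAt_sqrt hσ0.ne')
        have h2 := h1.div_const (s t)
        exact contDiffAt_const.add (contDiffAt_const.mul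
          ((contDiffAt_const.mul h2).sub (h2.pow 2)))
      · filter_upwards [hd1] with y hy
        have h1 := (hψd y hy).div_const (s t)
        have h2 := (((h1.const_mul 2).sub (h1.fun_pow 2)).const_mul (M - δ)).const_add δ
        refine h2.congr_deriv ?_
        ring
      · have h1 := hψσ.div_const (s t)
        have h2 := (hE.comp_hd2 hσ0 hσr).div_const (s t)
        have h3 := (((h1.const_mul 2).const_sub 2).fun_mul h2).const_mul (M - δ)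
        refine h3.congr_deriv ?_
        rw [← hρ, ← hz]
        ring
      · filter_upwards [hev1] with y hy
        show δ + (M - δ) * gq (ψ √y / s t) ≤ _
        rw [gq_lt hy.le]
      · show _ = δ + (M - δ) * gq (ψ √σ / s t)
        rw [← hρ, ← hz, gq_lt hz1.le]
      · filter_upwards [hev2] with τ hτ
        show δ + (M - δ) * gq (ψ √σ / s τ) ≤ _
        rw [← hρ, gq_lt hτ.le]
      · show δ + (M - δ) * (2 * (ψ ρ / s t) - (ψ ρ / s t) ^ 2) = δ + (M - δ) * gq (ψ √σ / s t)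
        rw [← hρ, ← hz, gq_lt hz1.le]
      · have h2 := (((hzd.const_mul 2).sub (hzd.fun_pow 2)).const_mul (M - δ)).const_add δ
        refine h2.congr_deriv ?_
        rw [← hz]
        ring
    · show 4 * ν * σ * ((M - δ) * ((2 - 2 * z) * (-(κ ρ * E ρ / (4 * ρ ^ 3)) / s t)
          - 2 * (E ρ / (2 * ρ) / s t) * (E ρ / (2 * ρ) / s t)))
        - 2 * w * ((M - δ) * ((2 - 2 * (ψ √σ / s t)) * (E √σ / (2 * √σ) / s t)))
        ≤ (M - δ) * ((2 - 2 * z) * (-(z * (4 * ν * e ^ 2 / s t ^ 2))))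
      rw [← hρ, ← hz]
      obtain ⟨S, hS⟩ : ∃ S : ℝ, S = s t := ⟨_, rfl⟩
      rw [← hS] at hst ⊢
      have e1 : 4 * ν * σ * ((M - δ) * ((2 - 2 * z) * (-(κ ρ * E ρ / (4 * ρ ^ 3)) / S)
          - 2 * (E ρ / (2 * ρ) / S) * (E ρ / (2 * ρ) / S)))
          = (M - δ) * (-((2 - 2 * z) * (κ ρ * ν) * (E ρ / (ρ * S))) - 2 * ν * (E ρ / S) ^ 2) := by
        rw [hρ2]
        field_simp
        ring
      have e2 : 2 * w * ((M - δ) * ((2 - 2 * z) * (E ρ / (2 * ρ) / S)))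
          = (M - δ) * ((2 - 2 * z) * w * (E ρ / (ρ * S))) := by
        field_simp
      have e3 : (2 - 2 * z) * (-(z * (4 * ν * e ^ 2 / S ^ 2)))
          = -(4 * (z * (1 - z)) * (2 * ν * (e / S) ^ 2)) := by
        field_simp
      rw [e1, e2, e3, ← mul_sub]
      apply mul_le_mul_of_nonneg_left _ hm.le
      have h1 : 0 ≤ (2 - 2 * z) * (E ρ / (ρ * S)) := by
        have : 0 ≤ 2 - 2 * z := by linarith
        positivity
      have h2 := mul_le_mul_of_nonneg_left hw h1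
      have h3 : 4 * (z * (1 - z)) ≤ 1 := by nlinarith [sq_nonneg (2 * z - 1)]
      have h4 : (e / S) ^ 2 ≤ (E ρ / S) ^ 2 := by gcongr
      have h5 : 4 * (z * (1 - z)) * (2 * ν * (e / S) ^ 2) ≤ 1 * (2 * ν * (E ρ / S) ^ 2) := by
        apply mul_le_mul h3 _ (by positivity) (by norm_num)
        gcongr
      nlinarith

end Pool.Agent.X96.AX
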