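import Pool.Agent.X96.AX.Fel

/-!
Axisymmetric flows (helper96): one-sided conditions on the radial velocity and the scale function
of a diffusion; the estimate at a given time, ancient solutions.
-/

set_option autoImplicit false

open MeasureTheory Set Metric Filter Topology
open scoped ContDiff

namespace Pool.Agent.X96.AX

open H459R3.NS W221.NS Pool.Agent.TH305.DR Pool.Agent.TH305.AX

variable {ν T : ℝ} {u : ℝ → V → V} {p : ℝ → V → ℝ}

theorem feller_time (hν : 0 < ν) (h : BSol ν T u p) {r M δ : ℝ} (hδ : 0 ≤ δ) (hM : 0 ≤ M)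
    {κ E : ℝ → ℝ} (hE : Wgt r κ E)
    (hMb : ∀ t ∈ Ico 0 T, ∀ x, sg x ≤ r ^ 2 → |circ (u t) x| ≤ M)
    (hcond : ∀ t ∈ Ioo 0 T, ∀ x, 0 < sg x → sg x < r ^ 2 → δ < |circ (u t) x| →
      -(κ √(sg x) * ν) ≤ x 0 * u t x 0 + x 1 * u t x 1)
    {t : ℝ} (ht : t ∈ Ioo 0 T) (htr : (∫ s in (0 : ℝ)..r, E s) ^ 2 ≤ 8 * ν * E r ^ 2 * t)
    {x : V} (hx : sg x ≤ r ^ 2) :
    |circ (u t) x| ≤ δ + 2 * M * ((∫ s in (0 : ℝ)..√(sg x), E s) / ∫ s in (0 : ℝ)..r, E s) := by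
  have hr := hE.hr
  have he0 : 0 < E r := hE.pos r ⟨hr, le_rfl⟩
  obtain ⟨P, hP⟩ : ∃ P : ℝ, P = ∫ s in (0 : ℝ)..r, E s := ⟨_, rfl⟩
  have hP0 : 0 < P := by rw [hP]; exact hE.psi_pos ⟨hr, le_rfl⟩
  obtain ⟨Q, hQ⟩ : ∃ Q : ℝ, Q = ∫ s in (0 : ℝ)..√(sg x), E s := ⟨_, rfl⟩
  have hQ0 : 0 ≤ Q := by
    rw [hQ]
    exact hE.psi_nn ⟨Real.sqrt_nonneg _, Real.sqrt_le_iff.2 ⟨hr.le, hx⟩⟩
  rw [← hP] at htr ⊢
  rw [← hQ]
  rcases le_or_gt M δ with hMδ | hMδ
  · have h1 := hMb t ⟨ht.1.le, ht.2⟩ x hx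
    have : 0 ≤ 2 * M * (Q / P) := by positivity
    linarith
  obtain ⟨tr, htre⟩ : ∃ tr : ℝ, tr = P ^ 2 / (8 * ν * E r ^ 2) := ⟨_, rfl⟩
  have htr0 : 0 < tr := by rw [htre]; positivity
  have htrt : tr ≤ t := by
    rw [htre, div_le_iff₀ (by positivity)]
    linarith
  obtain ⟨U, hU0, hU⟩ := h.u_bdd ht.2
  obtain ⟨η, hη, hηt, hηU⟩ : ∃ η : ℝ, 0 < η ∧ η < tr ∧ 2 * U * √(8 * ν * η) ≤ M - δ := by
    obtain ⟨g, hg⟩ : ∃ g : ℝ, g = (M - δ) / (2 * (U + 1)) := ⟨_, rfl⟩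
    have hg0 : 0 < g := by
      rw [hg]
      have : 0 < M - δ := by linarith
      positivity
    refine ⟨min (tr / 2) (g ^ 2 / (8 * ν)), lt_min (by positivity) (by positivity),
      (min_le_left _ _).trans_lt (by linarith), ?_⟩
    have h1 : min (tr / 2) (g ^ 2 / (8 * ν)) ≤ g ^ 2 / (8 * ν) := min_le_right _ _
    have h3 : √(8 * ν * min (tr / 2) (g ^ 2 / (8 * ν))) ≤ g := by
      refine Real.sqrt_le_iff.2 ⟨hg0.le, ?_⟩
      rw [le_div_iff₀ (by positivity)] at h1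
      linarith
    calc 2 * U * √(8 * ν * min (tr / 2) (g ^ 2 / (8 * ν))) ≤ 2 * (U + 1) * g := by
          gcongr
          linarith
      _ = M - δ := by rw [hg]; field_simp
  -- the window
  obtain ⟨w, hw⟩ : ∃ w : ℝ, w = tr - η := ⟨_, rfl⟩
  have hw0 : 0 < w := by linarith
  have hsh := BSol.shift h (t₀ := t - w) (by linarith)
  have hwin := hsh.restrict (T' := w) (by linarith [ht.2])
  have hTr : 8 * ν * E r ^ 2 * (w + η) ≤ P ^ 2 := by
    rw [hw, sub_add_cancel, htre]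
    apply le_of_eq
    field_simp
  have core := feller_core hν hwin (r := r) (M := M) (δ := δ) hδ hMδ hE
    (fun s hs y hy => hMb (t - w + s) ⟨by linarith [hs.1], by linarith [hs.2, ht.2]⟩ y hy)
    (fun s hs y hy hy2 hy3 => hcond (t - w + s) ⟨by linarith [hs.1], by linarith [hs.2, ht.2]⟩ y
      hy hy2 hy3)
    (η := η) (U := U) hη hw0 (fun y => hU (t - w + 0) ⟨by linarith, by linarith⟩ y) hηU
    (by rw [← hP]; exact hTr)
  -- the limit
  have hlim : Tendsto (fun τ : ℝ => δ + 2 * M * (Q / √(8 * ν * E r ^ 2 * (τ - (t - w) + η))))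
      (𝓝[<] t) (𝓝 (δ + 2 * M * (Q / P))) := by
    have h1 : √(8 * ν * E r ^ 2 * (t - (t - w) + η)) = P := by
      rw [show t - (t - w) + η = tr by rw [hw]; ring, htre]
      rw [show 8 * ν * E r ^ 2 * (P ^ 2 / (8 * ν * E r ^ 2)) = P ^ 2 by field_simp,
        Real.sqrt_sq hP0.le]
    have hc : ContinuousAt (fun τ : ℝ => δ + 2 * M * (Q / √(8 * ν * E r ^ 2 * (τ - (t - w) + η))))
        t := by
      refine continuousAt_const.add (continuousAt_const.mul (continuousAt_const.div ?_ ?_))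
      · exact (Real.continuous_sqrt.comp (by fun_prop)).continuousAt
      · rw [h1]; exact hP0.ne'
    have h2 := hc.tendsto
    rw [h1] at h2
    exact h2.mono_left nhdsWithin_le_nhds
  have hcl : Tendsto (fun s => |circ (u s) x|) (𝓝[<] t) (𝓝 |circ (u t) x|) :=
    ((h.circ_hd ht x).continuousAt.abs.tendsto).mono_left nhdsWithin_le_nhds
  refine le_of_tendsto_of_tendsto hcl hlim ?_
  filter_upwards [Ioo_mem_nhdsLT (show t - w < t by linarith)] with τ hτ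
  have h1 := core (τ - (t - w)) ⟨by linarith [hτ.1], by linarith [hτ.2]⟩ x hx
  have e1 : t - w + (τ - (t - w)) = τ := by ring
  simp only [e1] at h1
  rw [← hQ] at h1
  have h2 : 0 < √(8 * ν * E r ^ 2 * (τ - (t - w) + η)) := by
    have : 0 < τ - (t - w) + η := by linarith [hτ.1]
    positivity
  have h3 := gq_two (div_nonneg hQ0 h2.le)
  have h4 : (M - δ) * gq (Q / √(8 * ν * E r ^ 2 * (τ - (t - w) + η)))
      ≤ M * (2 * (Q / √(8 * ν * E r ^ 2 * (τ - (t - w) + η)))) :=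
    mul_le_mul (by linarith) h3 (gq_nn (div_nonneg hQ0 h2.le)) hM
  linarith

/-- The weight `exp (∫_ρ^c (κ(s) - 1) / s ds)`. -/
noncomputable def scaleDeriv (κ : ℝ → ℝ) (c ρ : ℝ) : ℝ :=
  Real.exp (∫ s in ρ..c, (κ s - 1) / s)

lemma scale_wgt {κ : ℝ → ℝ} {c r R : ℝ} (hr : 0 < r) (hrR : r < R) (hc : 0 < c) (hcR : c < R)
    (hκ : ContinuousOn κ (Ioo 0 R)) (hκ1 : ∀ ρ ∈ Ioo 0 R, 1 ≤ κ ρ)
    (hi : IntervalIntegrable (scaleDeriv κ c) volume 0 r) : Wgt r κ (scaleDeriv κ c) where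
  hr := hr
  pos := fun ρ _ => Real.exp_pos _
  hd := by
    intro ρ hρ
    have hgc : ContinuousOn (fun s => (κ s - 1) / s) (Ioo 0 R) :=
      (hκ.sub continuousOn_const).div continuousOn_id fun s hs => hs.1.ne'
    have hρR : ρ ∈ Ioo 0 R := ⟨hρ.1, hρ.2.trans hrR⟩
    have hii : IntervalIntegrable (fun s => (κ s - 1) / s) volume ρ c := by
      apply ContinuousOn.intervalIntegrable
      refine hgc.mono fun s hs => ?_
      rw [uIcc, mem_Icc] at hs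
      exact ⟨(lt_min hρ.1 hc).trans_le hs.1, hs.2.trans_lt (max_lt hρR.2 hcR)⟩
    have h1 := intervalIntegral.integral_hasDerivAt_left hii
      (hgc.stronglyMeasurableAtFilter isOpen_Ioo ρ hρR)
      (hgc.continuousAt (isOpen_Ioo.mem_nhds hρR))
    unfold scaleDeriv
    refine h1.exp.congr_deriv ?_
    ring
  cont := hκ.mono (Ioo_subset_Ioo_right hrR.le)
  anti := by
    intro ρ hρ ρ' hρ' hle
    unfold scaleDeriv
    apply Real.exp_le_exp.2
    have hgc : ContinuousOn (fun s => (κ s - 1) / s) (Ioo 0 R) :=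
      (hκ.sub continuousOn_const).div continuousOn_id fun s hs => hs.1.ne'
    have hii : ∀ a b : ℝ, 0 < a → a < R → 0 < b → b < R →
        IntervalIntegrable (fun s => (κ s - 1) / s) volume a b := by
      intro a b ha haR hb hbR
      apply ContinuousOn.intervalIntegrable
      refine hgc.mono fun s hs => ?_
      rw [uIcc, mem_Icc] at hs
      exact ⟨(lt_min ha hb).trans_le hs.1, hs.2.trans_lt (max_lt haR hbR)⟩
    have h1 := intervalIntegral.integral_add_adjacent_intervals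
      (hii ρ' ρ hρ'.1 (hρ'.2.trans_lt hrR) hρ.1 (hρ.2.trans_lt hrR))
      (hii ρ c hρ.1 (hρ.2.trans_lt hrR) hc hcR)
    rw [← h1]
    have h2 : 0 ≤ ∫ s in ρ'..ρ, (κ s - 1) / s :=
      intervalIntegral.integral_nonneg hle fun s hs => by
        have h3 := hκ1 s ⟨hρ'.1.trans_le hs.1, hs.2.trans_lt (hρ.2.trans_lt hrR)⟩
        have h4 : 0 < s := hρ'.1.trans_le hs.1
        apply div_nonneg (by linarith) h4.le
    linarith
  int := hi

/-- **Ancient solutions.** -/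
theorem feller_ancient (hν : 0 < ν)
    (h : ∀ t₀ < 0, BSol ν (-t₀) (fun t => u (t₀ + t)) (fun t => p (t₀ + t))) {M : ℝ}
    (hM : ∀ t < 0, ∀ x, |circ (u t) x| ≤ M)
    (hcond : ∀ δ > 0, ∃ κ : ℝ → ℝ, ContinuousOn κ (Ioi 0) ∧ (∀ ρ > 0, 1 ≤ κ ρ) ∧
      (∀ r > 0, IntervalIntegrable (scaleDeriv κ 1) volume 0 r) ∧
      Tendsto (fun r => ∫ s in (0 : ℝ)..r, scaleDeriv κ 1 s) atTop atTop ∧
      ∀ t < 0, ∀ x, 0 < sg x → δ < |circ (u t) x| →
        -(κ √(sg x) * ν) ≤ x 0 * u t x 0 + x 1 * u t x 1) :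
    ∀ t < 0, ∀ x, circ (u t) x = 0 := by
  intro t ht x
  have hM0 : 0 ≤ M := (abs_nonneg _).trans (hM t ht x)
  rw [← abs_nonpos_iff]
  apply le_of_forall_pos_le_add
  intro d hd
  rw [zero_add]
  obtain ⟨κ, hκ, hκ1, hi, hinf, hc⟩ := hcond (d / 2) (by positivity)
  obtain ⟨Q, hQ⟩ : ∃ Q : ℝ, Q = ∫ s in (0 : ℝ)..√(sg x), scaleDeriv κ 1 s := ⟨_, rfl⟩
  have hlim : Tendsto (fun r : ℝ => 2 * M * (Q / ∫ s in (0 : ℝ)..r, scaleDeriv κ 1 s)) atTop
      (𝓝 (2 * M * 0)) := (tendsto_const_nhds.div_atTop hinf).const_mul _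
  rw [mul_zero] at hlim
  have hev := (hlim.eventually (gt_mem_nhds (show (0 : ℝ) < d / 2 by positivity))).and
    ((eventually_ge_atTop (√(sg x))).and (eventually_gt_atTop 0))
  obtain ⟨r, hr1, hr2, hr3⟩ := hev.exists
  have hsr : sg x ≤ r ^ 2 := by
    calc sg x = √(sg x) ^ 2 := (Real.sq_sqrt (sg_nonneg x)).symm
      _ ≤ r ^ 2 := by gcongr
  have hw : Wgt r κ (scaleDeriv κ 1) := scale_wgt (R := r + 2) hr3 (by linarith) one_pos
    (by linarith) (hκ.mono fun s hs => hs.1) (fun ρ hρ => hκ1 ρ hρ.1) (hi r hr3)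
  have he0 := hw.pos r ⟨hr3, le_rfl⟩
  obtain ⟨q, hq⟩ : ∃ q : ℝ, q = (∫ s in (0 : ℝ)..r, scaleDeriv κ 1 s) ^ 2
      / (8 * ν * scaleDeriv κ 1 r ^ 2) + 1 := ⟨_, rfl⟩
  have hq0 : 0 < q := by rw [hq]; positivity
  obtain ⟨t₀, ht₀⟩ : ∃ t₀ : ℝ, t₀ = t - q := ⟨_, rfl⟩
  have ht₀0 : t₀ < 0 := by linarith
  have hmem : t - t₀ ∈ Ioo 0 (-t₀) := ⟨by linarith, by linarith⟩
  have key := feller_time hν (h t₀ ht₀0) (r := r) (M := M) (δ := d / 2) (by positivity) hM0 hw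
    (fun s hs y _ => hM _ (by linarith [hs.2]) y)
    (fun s hs y hy _ hyd => hc _ (by linarith [hs.2]) y hy hyd) hmem
    (by
      have e : t - t₀ = q := by rw [ht₀]; ring
      rw [e, hq, mul_add, mul_one]
      have h1 : 8 * ν * scaleDeriv κ 1 r ^ 2 * ((∫ s in (0 : ℝ)..r, scaleDeriv κ 1 s) ^ 2
          / (8 * ν * scaleDeriv κ 1 r ^ 2)) = (∫ s in (0 : ℝ)..r, scaleDeriv κ 1 s) ^ 2 := by
        field_simp
      rw [h1]
      have : 0 ≤ 8 * ν * scaleDeriv κ 1 r ^ 2 := by positivity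
      linarith) hsr
  have e : t₀ + (t - t₀) = t := by ring
  rw [e, ← hQ] at key
  linarith

end Pool.Agent.X96.AX
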