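import Pool.Agent.X96.AX.Fel2

/-!
Axisymmetric flows (helper96): the logarithmic case.
-/

set_option autoImplicit false

open MeasureTheory Set Metric Filter Topology
open scoped ContDiff

namespace Pool.Agent.X96.AX

open H459R3.NS W221.NS Pool.Agent.TH305.DR Pool.Agent.TH305.AX

variable {ν T : ℝ} {u : ℝ → V → V} {p : ℝ → V → ℝ}

/-- The weight `1 / (ρ log (L / ρ) ^ a)`. -/
noncomputable def El (L a ρ : ℝ) : ℝ := (ρ * Real.log (L / ρ) ^ a)⁻¹

/-- Its primitive. -/
noncomputable def Fl (L a ρ : ℝ) : ℝ := Real.log (L / ρ) ^ (1 - a) / (a - 1)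

section
variable {L a r ρ : ℝ}

lemma ell_pos (hL : 0 < L) (ha : 1 < a) (hr : r ≤ L * Real.exp (-a)) (hρ : 0 < ρ) (hρr : ρ ≤ r) :
    a ≤ Real.log (L / ρ) := by
  rw [Real.le_log_iff_exp_le (by positivity), le_div_iff₀ hρ]
  have h1 : ρ ≤ L * Real.exp (-a) := hρr.trans hr
  calc Real.exp a * ρ ≤ Real.exp a * (L * Real.exp (-a)) := by gcongr
    _ = L * (Real.exp a * Real.exp (-a)) := by ring
    _ = L := by rw [← Real.exp_add]; simp

lemma ell_hd (hL : 0 < L) (hρ : 0 < ρ) : HasDerivAt (fun s => Real.log (L / s)) (-(1 / ρ)) ρ := by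
  have h1 : HasDerivAt (fun s : ℝ => L / s) (-(L / ρ ^ 2)) ρ := by
    have := (hasDerivAt_inv hρ.ne').const_mul L
    refine this.congr_deriv ?_ |>.congr_of_eventuallyEq ?_
    · field_simp
    · exact Filter.Eventually.of_forall fun s => div_eq_mul_inv _ _
  have h2 := h1.log (by positivity)
  refine h2.congr_deriv ?_
  field_simp

lemma El_hd (hL : 0 < L) (ha : 1 < a) (hr : r ≤ L * Real.exp (-a)) (hρ : 0 < ρ) (hρr : ρ ≤ r) :
    HasDerivAt (El L a) (-((2 - a / Real.log (L / ρ) - 1) / ρ * El L a ρ)) ρ := by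
  have hl : 0 < Real.log (L / ρ) := by linarith [ell_pos hL ha hr hρ hρr]
  have h1 := (ell_hd hL hρ).rpow_const (p := a) (Or.inl hl.ne')
  have h2 := (hasDerivAt_id' ρ).fun_mul h1
  have hla : 0 < Real.log (L / ρ) ^ a := Real.rpow_pos_of_pos hl _
  have h3 := h2.fun_inv (by positivity)
  unfold El
  refine h3.congr_deriv ?_
  rw [Real.rpow_sub_one hl.ne']
  field_simp
  ring

lemma Fl_hd (hL : 0 < L) (ha : 1 < a) (hr : r ≤ L * Real.exp (-a)) (hρ : 0 < ρ) (hρr : ρ ≤ r) :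
    HasDerivAt (Fl L a) (El L a ρ) ρ := by
  have hl : 0 < Real.log (L / ρ) := by linarith [ell_pos hL ha hr hρ hρr]
  have h1 := ((ell_hd hL hρ).rpow_const (p := 1 - a) (Or.inl hl.ne')).div_const (a - 1)
  unfold Fl El
  refine h1.congr_deriv ?_
  have ha1 : a - 1 ≠ 0 := by linarith
  rw [show 1 - a - 1 = -a by ring, Real.rpow_neg hl.le]
  have hla : 0 < Real.log (L / ρ) ^ a := Real.rpow_pos_of_pos hl _
  field_simp
  ring

lemma Fl_zero (ha : 1 < a) : Fl L a 0 = 0 := by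
  unfold Fl
  rw [div_zero, Real.log_zero, Real.zero_rpow (by linarith), zero_div]

lemma Fl_cont (hL : 0 < L) (ha : 1 < a) (hr0 : 0 < r) (hr : r ≤ L * Real.exp (-a)) :
    ContinuousOn (Fl L a) (Icc 0 r) := by
  intro ρ hρ
  rcases eq_or_lt_of_le hρ.1 with h0 | h0
  · rw [← h0]
    have hlim : Tendsto (Fl L a) (𝓝[>] 0) (𝓝 (Fl L a 0)) := by
      rw [Fl_zero ha]
      unfold Fl
      have h1 : Tendsto (fun s : ℝ => L / s) (𝓝[>] 0) atTop := by
        simp only [div_eq_mul_inv]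
        exact (tendsto_inv_nhdsGT_zero).const_mul_atTop hL
      have h2 := (Real.tendsto_log_atTop.comp h1)
      have h3 := (tendsto_rpow_neg_atTop (show 0 < a - 1 by linarith)).comp h2
      have h4 := h3.div_const (a - 1)
      rw [zero_div] at h4
      refine h4.congr fun s => ?_
      simp only [Function.comp]
      rw [neg_sub]
    have h5 : ContinuousWithinAt (Fl L a) (Ioi 0) 0 := hlim
    have h6 : ContinuousWithinAt (Fl L a) (Ici 0) 0 := continuousWithinAt_Ioi_iff_Ici.1 h5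
    exact h6.mono fun s hs => hs.1
  · exact (Fl_hd hL ha hr h0 hρ.2).continuousAt.continuousWithinAt

lemma El_int (hL : 0 < L) (ha : 1 < a) (hr0 : 0 < r) (hr : r ≤ L * Real.exp (-a)) :
    IntervalIntegrable (El L a) volume 0 r := by
  refine intervalIntegral.intervalIntegrable_deriv_of_nonneg (g := Fl L a) ?_ ?_ ?_
  · rw [uIcc_of_le hr0.le]; exact Fl_cont hL ha hr0 hr
  · intro ρ hρ
    rw [min_eq_left hr0.le, max_eq_right hr0.le] at hρ
    exact Fl_hd hL ha hr hρ.1 hρ.2.le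
  · intro ρ hρ
    rw [min_eq_left hr0.le, max_eq_right hr0.le] at hρ
    have hl : 0 < Real.log (L / ρ) := by linarith [ell_pos hL ha hr hρ.1 hρ.2.le]
    unfold El
    have := hρ.1
    positivity

lemma El_integral (hL : 0 < L) (ha : 1 < a) (hr0 : 0 < r) (hr : r ≤ L * Real.exp (-a))
    (hρ : 0 ≤ ρ) (hρr : ρ ≤ r) : ∫ s in (0 : ℝ)..ρ, El L a s = Fl L a ρ := by
  rw [intervalIntegral.integral_eq_sub_of_hasDerivAt_of_le hρ
    ((Fl_cont hL ha hr0 hr).mono (Icc_subset_Icc_right hρr))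
    (fun s hs => Fl_hd hL ha hr hs.1 (hs.2.le.trans hρr)) ?_, Fl_zero ha, sub_zero]
  exact (El_int hL ha hr0 hr).mono_set (by
    rw [uIcc_of_le hρ, uIcc_of_le hr0.le]
    exact Icc_subset_Icc_right hρr)

lemma El_anti (hL : 0 < L) (ha : 1 < a) (hr : r ≤ L * Real.exp (-a)) {ρ' : ℝ} (hρ' : 0 < ρ')
    (hρr : ρ ≤ r) (hle : ρ' ≤ ρ) : El L a ρ ≤ El L a ρ' := by
  have hρ : 0 < ρ := hρ'.trans_le hle
  have h1 := ell_pos hL ha hr hρ hρr
  have hl : 0 < Real.log (L / ρ) := by linarith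
  have h1' := ell_pos hL ha hr hρ' (hle.trans hρr)
  have hl' : 0 < Real.log (L / ρ') := by linarith
  unfold El
  have hp' : 0 < Real.log (L / ρ') ^ a := Real.rpow_pos_of_pos hl' _
  apply inv_anti₀ (by positivity)
  obtain ⟨x, hx⟩ : ∃ x : ℝ, x = Real.log (ρ / ρ') := ⟨_, rfl⟩
  have hx0 : 0 ≤ x := by
    rw [hx]
    exact Real.log_nonneg (by rw [one_le_div hρ']; exact hle)
  have he : Real.log (L / ρ') = Real.log (L / ρ) + x := by
    rw [hx, ← Real.log_mul (by positivity) (by positivity)]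
    congr 1
    field_simp
  obtain ⟨l, hle'⟩ : ∃ l : ℝ, l = Real.log (L / ρ) := ⟨_, rfl⟩
  rw [he, ← hle']
  rw [← hle'] at h1 hl
  have h2 : (l + x) ^ a ≤ l ^ a * (ρ / ρ') := by
    have h3 : l + x = l * (1 + x / l) := by field_simp
    rw [h3, Real.mul_rpow hl.le (by positivity)]
    apply mul_le_mul_of_nonneg_left _ (by positivity)
    have h4 : 1 + x / l ≤ Real.exp (x / l) := by
      have := Real.add_one_le_exp (x / l)
      linarith
    calc (1 + x / l) ^ a ≤ Real.exp (x / l) ^ a :=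
          Real.rpow_le_rpow (by positivity) h4 (by linarith)
      _ = Real.exp (x / l * a) := by rw [← Real.exp_mul]
      _ ≤ Real.exp x := by
        apply Real.exp_le_exp.2
        rw [div_mul_eq_mul_div, div_le_iff₀ hl]
        nlinarith
      _ = ρ / ρ' := by rw [hx, Real.exp_log (by positivity)]
  calc ρ' * (l + x) ^ a ≤ ρ' * (l ^ a * (ρ / ρ')) := by gcongr
    _ = ρ * l ^ a := by field_simp

lemma El_wgt (hL : 0 < L) (ha : 1 < a) (hr0 : 0 < r) (hr : r ≤ L * Real.exp (-a)) :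
    Wgt r (fun ρ => 2 - a / Real.log (L / ρ)) (El L a) where
  hr := hr0
  pos := fun ρ hρ => by
    have hl : 0 < Real.log (L / ρ) := by linarith [ell_pos hL ha hr hρ.1 hρ.2]
    unfold El
    have := hρ.1
    positivity
  hd := fun ρ hρ => El_hd hL ha hr hρ.1 hρ.2.le
  cont := by
    refine continuousOn_const.sub (continuousOn_const.div ?_ ?_)
    · intro ρ hρ
      exact (ell_hd hL hρ.1).continuousAt.continuousWithinAt
    · intro ρ hρ
      have hl : 0 < Real.log (L / ρ) := by linarith [ell_pos hL ha hr hρ.1 hρ.2.le]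
      exact hl.ne'
  anti := fun ρ hρ ρ' hρ' hle => El_anti hL ha hr hρ'.1 hρ.2 hle
  int := El_int hL ha hr0 hr

end

/-- **The logarithmic case.** -/
theorem feller_log (hν : 0 < ν) (h : BSol ν T u p) {L a R M δ : ℝ} (hL : 0 < L) (ha : 1 < a)
    (hR : R ≤ L * Real.exp (-a)) (hδ : 0 ≤ δ) (hM : 0 ≤ M)
    (hMb : ∀ t ∈ Ico 0 T, ∀ x, sg x ≤ R ^ 2 → |circ (u t) x| ≤ M)
    (hcond : ∀ t ∈ Ioo 0 T, ∀ x, 0 < sg x → sg x < R ^ 2 → δ < |circ (u t) x| →
      -(2 * ν) + a * ν / Real.log (L / √(sg x)) ≤ x 0 * u t x 0 + x 1 * u t x 1)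
    {r : ℝ} (hr : 0 < r) (hrR : r ≤ R) {t : ℝ} (ht : t ∈ Ioo 0 T)
    (htr : (r * Real.log (L / r) / (a - 1)) ^ 2 ≤ 8 * ν * t) {x : V} (hx0 : 0 < sg x)
    (hx : sg x ≤ r ^ 2) :
    |circ (u t) x| ≤ δ + 2 * M * (Real.log (L / r) / Real.log (L / √(sg x))) ^ (a - 1) := by
  have hr' : r ≤ L * Real.exp (-a) := hrR.trans hR
  have hrR2 : r ^ 2 ≤ R ^ 2 := by gcongr
  have hρ : 0 < √(sg x) := Real.sqrt_pos.2 hx0
  have hρr : √(sg x) ≤ r := Real.sqrt_le_iff.2 ⟨hr.le, hx⟩
  have hlr : 0 < Real.log (L / r) := by linarith [ell_pos hL ha hr' hr le_rfl]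
  have hlρ : 0 < Real.log (L / √(sg x)) := by linarith [ell_pos hL ha hr' hρ hρr]
  have ha1 : 0 < a - 1 := by linarith
  have key := feller_time hν h (r := r) (M := M) (δ := δ) hδ hM (El_wgt hL ha hr hr')
    (fun s hs y hy => hMb s hs y (hy.trans hrR2))
    (fun s hs y hy hy2 hy3 => by
      have h1 := hcond s hs y hy (hy2.trans_le hrR2) hy3
      have e : -((2 - a / Real.log (L / √(sg y))) * ν)
          = -(2 * ν) + a * ν / Real.log (L / √(sg y)) := by ring
      rw [e]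
      exact h1) ht
    (by
      rw [El_integral hL ha hr hr' hr.le le_rfl]
      have h1 : Fl L a r = El L a r * (r * Real.log (L / r) / (a - 1)) := by
        unfold Fl El
        rw [Real.rpow_sub hlr, Real.rpow_one]
        have hla : 0 < Real.log (L / r) ^ a := Real.rpow_pos_of_pos hlr _
        field_simp
      rw [h1, mul_pow]
      calc El L a r ^ 2 * (r * Real.log (L / r) / (a - 1)) ^ 2
          ≤ El L a r ^ 2 * (8 * ν * t) := by gcongr
        _ = _ := by ring) hx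
  rw [El_integral hL ha hr hr' hρ.le hρr, El_integral hL ha hr hr' hr.le le_rfl] at key
  have e2 : Fl L a (√(sg x)) / Fl L a r
      = (Real.log (L / r) / Real.log (L / √(sg x))) ^ (a - 1) := by
    unfold Fl
    rw [div_div_div_cancel_right₀ ha1.ne', ← Real.div_rpow hlρ.le hlr.le,
      show 1 - a = -(a - 1) by ring, Real.rpow_neg (by positivity), ← Real.inv_rpow (by positivity),
      inv_div]
  rw [e2] at key
  exact key

end Pool.Agent.X96.AX
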