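import Pool.Agent.TH305.AX.Max
import Pool.Agent.TH305.AX.CmpT2
import Pool.Agent.TH305.AX.Bar5

/-!
Axisymmetric flows (helper96): one-sided type I condition on the radial velocity before a possible
blow-up time.
-/

set_option autoImplicit false

open MeasureTheory Set Metric Filter Topology
open scoped ContDiff

namespace Pool.Agent.X96.AX

open H459R3.NS W221.NS Pool.Agent.TH305.DR Pool.Agent.TH305.AX

lemma circ_axis (v : V → V) {x : V} (hx : sg x = 0) : circ v x = 0 := by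
  unfold sg at hx
  have h0 : x 0 = 0 := by nlinarith [sq_nonneg (x 0), sq_nonneg (x 1)]
  have h1 : x 1 = 0 := by nlinarith [sq_nonneg (x 0), sq_nonneg (x 1)]
  unfold circ
  rw [h0, h1]
  ring

theorem typeI {ν C μ β : ℝ} (hν : 0 < ν) (hC : 0 ≤ C) (hμ : 0 < μ) (hβ : 0 < β) :
    ∃ γ : ℝ, 0 < γ ∧ ∀ (T S M K : ℝ) (u : ℝ → V → V) (p : ℝ → V → ℝ) (B : ℝ → ℝ),
      0 < T → 0 < S → AxSol ν T u p →
      (∀ t ∈ Ico 0 T, ∀ x, sg x = S → |circ (u t) x| ≤ M) →
      ContinuousOn B (Ico 0 T) → (∀ t ∈ Ico 0 T, 0 ≤ B t) →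
      (∀ t ∈ Ico 0 T, ∫ r in (0 : ℝ)..t, B r ≤ K) →
      (∀ t ∈ Ioo 0 T, ∀ x, 0 < sg x → sg x < S → sg x ^ β < |circ (u t) x| →
        -((2 - μ) * ν) - C * √(sg x) / √(T - t) - B t * sg x
          ≤ x 0 * u t x 0 + x 1 * u t x 1) →
      ∃ A : ℝ, ∀ t ∈ Ico 0 T, ∀ x, sg x ≤ S → |circ (u t) x| ≤ A * sg x ^ γ := by
  obtain ⟨α, hαe⟩ : ∃ α : ℝ, α = min (min (μ / 2) (1 / 4)) β := ⟨_, rfl⟩
  have hα : 0 < α := by rw [hαe]; exact lt_min (lt_min (by positivity) (by norm_num)) hβ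
  have hα1 : α ≤ μ / 2 := by rw [hαe]; exact (min_le_left _ _).trans (min_le_left _ _)
  have hα2 : α ≤ 1 / 4 := by rw [hαe]; exact (min_le_left _ _).trans (min_le_right _ _)
  have hα3 : α ≤ β := by rw [hαe]; exact min_le_right _ _
  obtain ⟨Λ, γ, y₁, X₁, hpar⟩ := par_exists hν hC hα (show α < 1 / 2 by linarith)
  have hγ := hpar.g_pos
  refine ⟨γ / 2, by positivity, ?_⟩
  intro T S M K u p B hT hS h hM hB hB0 hBK hcond
  obtain ⟨m₁, hm₁, hlat⟩ := bar_lat hpar hT hS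
  obtain ⟨m₂, hm₂, hlow⟩ := bar_low2 hpar hT hS
  obtain ⟨k, hk, hini⟩ := bar_ini hpar hT hS
  obtain ⟨U, hU0, hU⟩ := u_bdd h hT
  have hT0 : (0 : ℝ) ∈ Ico 0 T := ⟨le_rfl, hT⟩
  obtain ⟨A, hA⟩ : ∃ A : ℝ, A = |M| / m₁ + 2 * U / k + S ^ (β - α) / m₂ := ⟨_, rfl⟩
  have hSp : 0 < S ^ (β - α) := Real.rpow_pos_of_pos hS _
  have a1 : 0 ≤ |M| / m₁ := by positivity
  have a2 : 0 ≤ 2 * U / k := by positivity
  have a3 : 0 ≤ S ^ (β - α) / m₂ := by positivity
  have hA0 : 0 ≤ A := by rw [hA]; positivity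
  have key := cmpT hν h (S := S) (A := A) hS (Φ := Bar T C α Λ γ y₁ X₁)
    (fun t ht σ hσ => bar_pos hpar ht.2 hσ.1) (bar_cont hpar) (bar_axis hpar) hB hB0
    (fun t ht x hx => by
      have h1 := hM t ht x hx
      have h2 := hlat t ht
      calc |circ (u t) x| ≤ |M| := h1.trans (le_abs_self M)
        _ = |M| / m₁ * m₁ := by field_simp
        _ ≤ A * m₁ := by
          apply mul_le_mul_of_nonneg_right _ hm₁.le
          rw [hA]; linarith
        _ ≤ _ := mul_le_mul_of_nonneg_left h2 hA0)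
    (fun x hx hxS => by
      have h1 := circ_le (u 0) x
      have h2 := hU 0 ⟨le_rfl, le_rfl⟩ x
      have h3 := hini (sg x) ⟨hx, hxS⟩
      calc |circ (u 0) x| ≤ 2 * √(sg x) * ‖u 0 x‖ := h1
        _ ≤ 2 * √(sg x) * U := by gcongr
        _ = 2 * U / k * (k * √(sg x)) := by field_simp
        _ ≤ A * (k * √(sg x)) := by
          apply mul_le_mul_of_nonneg_right _ (by positivity)
          rw [hA]; linarith
        _ ≤ _ := mul_le_mul_of_nonneg_left h3 hA0)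
    (fun t ht x hx hxS hbig _ => by
      have h3 := hlow t ⟨ht.1.le, ht.2⟩ (sg x) ⟨hx, hxS.le⟩
      have h4 : sg x ^ β < |circ (u t) x| := by
        refine lt_of_le_of_lt ?_ hbig
        have e1 : sg x ^ β = sg x ^ α * sg x ^ (β - α) := by
          rw [← Real.rpow_add hx]; congr 1; ring
        have e2 : sg x ^ (β - α) ≤ S ^ (β - α) :=
          Real.rpow_le_rpow hx.le hxS.le (by linarith)
        have e3 : 0 < sg x ^ α := Real.rpow_pos_of_pos hx _
        calc sg x ^ β = sg x ^ α * sg x ^ (β - α) := e1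
          _ ≤ sg x ^ α * S ^ (β - α) := by gcongr
          _ = S ^ (β - α) / m₂ * (m₂ * sg x ^ α) := by field_simp
          _ ≤ A * (m₂ * sg x ^ α) := by
            apply mul_le_mul_of_nonneg_right _ (by positivity)
            rw [hA]; linarith
          _ ≤ _ := mul_le_mul_of_nonneg_left h3 hA0
      have h5 := hcond t ht x hx hxS h4
      have h6 : -((2 - 2 * α) * ν) - C * √(sg x) / √(T - t) - B t * sg x
          ≤ x 0 * u t x 0 + x 1 * u t x 1 := by
        have : -((2 - 2 * α) * ν) ≤ -((2 - μ) * ν) := by nlinarith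
        linarith
      have hBt := hB0 t ⟨ht.1.le, ht.2⟩
      rcases le_or_gt (√(sg x / (T - t))) y₁ with hy | hy
      · exact inner_maj hpar ht.2 hx hy hBt h6
      · exact outer_maj hpar ht.2 hx hy hBt h6)
  refine ⟨A * Real.exp K * (Λ + 1), fun t ht x hx => ?_⟩
  rcases eq_or_lt_of_le (sg_nonneg x) with h0 | h0
  · rw [circ_axis (u t) h0.symm, abs_zero, ← h0, Real.zero_rpow (by positivity), mul_zero]
  · have h1 := key t ht x h0 hx
    have h2 := bar_up hpar ht.2 h0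
    have h3 := bar_pos hpar ht.2 h0
    have h4 : Real.exp (∫ r in (0 : ℝ)..t, B r) ≤ Real.exp K := Real.exp_le_exp.2 (hBK t ht)
    calc |circ (u t) x| ≤ A * Real.exp (∫ r in (0 : ℝ)..t, B r) * Bar T C α Λ γ y₁ X₁ t (sg x) := h1
      _ ≤ A * Real.exp K * Bar T C α Λ γ y₁ X₁ t (sg x) := by gcongr
      _ ≤ A * Real.exp K * ((Λ + 1) * sg x ^ (γ / 2)) := by gcongr
      _ = _ := by ring

end Pool.Agent.X96.AX
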