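import Pool.Agent.X96.AX.Mor2
import Pool.Agent.TH305.AX.BVanc

/-!
Axisymmetric flows (helper96): the moving barrier, iteration.
-/

set_option autoImplicit false

open MeasureTheory Set Metric Filter Topology
open scoped ContDiff

namespace Pool.Agent.X96.AX

open H459R3.NS W221.NS Pool.Agent.TH305.DR Pool.Agent.TH305.AX

variable {ν T : ℝ} {u : ℝ → V → V} {p : ℝ → V → ℝ}

/-- Shift in time. -/
lemma BSol.shift (h : BSol ν T u p) {t₀ : ℝ} (ht₀ : 0 ≤ t₀) :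
    BSol ν (T - t₀) (fun t => u (t₀ + t)) (fun t => p (t₀ + t)) where
  smooth_u := by
    have h1 := h.smooth_u.comp (f := fun z : ℝ × V => (t₀ + z.1, z.2))
      (s := Ico 0 (T - t₀) ×ˢ univ) (by fun_prop)
      (fun z hz => ⟨⟨by linarith [hz.1.1], by linarith [hz.1.2]⟩, trivial⟩)
    exact h1
  smooth_p := by
    have h1 := h.smooth_p.comp (f := fun z : ℝ × V => (t₀ + z.1, z.2))
      (s := Ioo 0 (T - t₀) ×ˢ univ) (by fun_prop)
      (fun z hz => ⟨⟨by linarith [hz.1.1], by linarith [hz.1.2]⟩, trivial⟩)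
    exact h1
  divfree := fun t ht x => h.divfree (t₀ + t) ⟨by linarith [ht.1], by linarith [ht.2]⟩ x
  momentum := by
    intro t ht x i
    have h1 := h.momentum (t₀ + t) ⟨by linarith [ht.1], by linarith [ht.2]⟩ x i
    have h2 : deriv (fun s => u (t₀ + s) x i) t = deriv (fun s => u s x i) (t₀ + t) :=
      deriv_comp_const_add (fun s => u s x i) t₀ t
    rw [h2]
    exact h1
  axi := fun t ht => h.axi (t₀ + t) ⟨by linarith [ht.1], by linarith [ht.2]⟩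
  bdd := by
    intro T' hT'
    obtain ⟨U, hU⟩ := h.bdd (t₀ + T') (by linarith)
    exact ⟨U, fun t ht x => hU (t₀ + t) ⟨by linarith [ht.1], by linarith [ht.2]⟩ x⟩

/-- The constants of the iteration. -/
lemma consts {a C : ℝ} (ha : 0 < a) (ha2 : a ≤ 1 / 2) (hC : 0 ≤ C) : ∃ ε K θ : ℝ, 0 < ε ∧ 2 ≤ K ∧
    1 / 2 ≤ θ ∧ θ < 1 ∧
    (∀ h R : ℝ, 0 < h → K ^ 2 * h ≤ R ^ 2 → 1 ≤ lo a (8 * a * h) (R ^ 2) + ε) ∧
    (∀ h σ : ℝ, 0 < h → 0 ≤ σ → σ ≤ (1 + C) ^ (1 / a) * h → lo a (2 * a * h) σ + ε ≤ θ) := by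
  have hC1 : 0 < (1 + C) ^ (1 / a) := Real.rpow_pos_of_pos (by linarith) _
  obtain ⟨q, hq⟩ : ∃ q : ℝ, q = lo a (2 * a) ((1 + C) ^ (1 / a)) := ⟨_, rfl⟩
  have h2a : 0 < 2 * a := by positivity
  have hq0 : 0 ≤ q := by rw [hq]; exact lo_nn h2a hC1.le
  have hq1 : q < 1 := by
    rw [hq]
    unfold lo
    have h1 := lo_pos h2a hC1
    have h2 : 0 < Real.exp (-((1 + C) ^ (1 / a) / (2 * a))) := Real.exp_pos _
    exact Real.rpow_lt_one h1.le (by linarith) ha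
  obtain ⟨ε, hε⟩ : ∃ ε : ℝ, ε = (1 - q) / 2 := ⟨_, rfl⟩
  have hε0 : 0 < ε := by rw [hε]; linarith
  obtain ⟨L, hL, hL'⟩ := lo_large ha hε0
  refine ⟨ε, 2 * (L + 1), (1 + q) / 2, hε0, by linarith, by linarith, by linarith, ?_, ?_⟩
  · intro h R hh hR
    apply hL' _ _ (by positivity)
    refine le_trans ?_ hR
    have h1 : L * (8 * a) ≤ (2 * (L + 1)) ^ 2 := by nlinarith
    nlinarith
  · intro h σ hh hσ hσ2
    have h1 : lo a (2 * a * h) σ ≤ q := by
      rw [hq]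
      unfold lo
      apply Real.rpow_le_rpow (lo_nonneg (by positivity) hσ) _ ha.le
      have h2 : σ / (2 * a * h) ≤ (1 + C) ^ (1 / a) / (2 * a) := by
        rw [div_le_div_iff₀ (by positivity) h2a]
        nlinarith
      have : Real.exp (-((1 + C) ^ (1 / a) / (2 * a))) ≤ Real.exp (-(σ / (2 * a * h))) :=
        Real.exp_le_exp.2 (by linarith)
      linarith
    rw [hε]
    linarith

/-- Left limits in time. -/
lemma circ_left (h : BSol ν T u p) {t : ℝ} (ht : t ∈ Ioo 0 T) (x : V) {B τ : ℝ} (hτ : τ < t)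
    (hB : ∀ s ∈ Ioo τ t, |circ (u s) x| ≤ B) : |circ (u t) x| ≤ B := by
  have h1 := (h.circ_hd ht x).continuousAt
  have h2 : Tendsto (fun s => |circ (u s) x|) (𝓝[<] t) (𝓝 |circ (u t) x|) :=
    (h1.abs.tendsto).mono_left nhdsWithin_le_nhds
  refine le_of_tendsto h2 ?_
  filter_upwards [Ioo_mem_nhdsLT hτ] with s hs
  exact hB s hs

/-- **Iteration.** -/
theorem iter {a C ε K θ : ℝ} (ha : 0 < a) (ha2 : a ≤ 1 / 2) (hC : 0 ≤ C) (hε : 0 < ε)
    (hK : 2 ≤ K) (hθ : 1 / 2 ≤ θ)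
    (c1 : ∀ h R : ℝ, 0 < h → K ^ 2 * h ≤ R ^ 2 → 1 ≤ lo a (8 * a * h) (R ^ 2) + ε)
    (c2 : ∀ h σ : ℝ, 0 < h → 0 ≤ σ → σ ≤ (1 + C) ^ (1 / a) * h → lo a (2 * a * h) σ + ε ≤ θ)
    (hν : 0 < ν) (h : BSol ν T u p) {R M δ : ℝ} (hR : 0 < R)
    (hδ : 0 ≤ δ) (hM : δ ≤ M) {b : ℝ → ℝ} (hb : ContinuousOn b (Ico 0 T))
    (hb0 : ∀ t ∈ Ico 0 T, 0 ≤ b t)
    (hbC : ∀ s t, 0 ≤ s → s ≤ t → t < T → ∫ r in s..t, b r ≤ C * (ν * (t - s)) ^ a)
    (hMb : ∀ t ∈ Ico 0 T, ∀ x, sg x ≤ R ^ 2 → |circ (u t) x| ≤ M)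
    (hcond : ∀ t ∈ Ioo 0 T, ∀ x, 0 < sg x → sg x < R ^ 2 → δ < |circ (u t) x| →
      -(2 * (1 - a) * ν) - b t / (2 * a) * sg x ^ (1 - a) ≤ x 0 * u t x 0 + x 1 * u t x 1)
    {t₁ : ℝ} (ht₁ : t₁ ∈ Ioo 0 T) (hR₁ : R ^ 2 ≤ ν * t₁) (k : ℕ) :
    ∀ t ∈ Ico (t₁ - (R / K ^ k) ^ 2 / (ν * K ^ 2)) t₁, ∀ x, sg x ≤ (R / K ^ k) ^ 2 →
      |circ (u t) x| ≤ δ + (M - δ) * θ ^ k := by
  have hK0 : 0 < K := by linarith
  have hθ0 : 0 < θ := by linarith
  induction k with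
  | zero =>
    intro t ht x hx
    rw [pow_zero, div_one] at ht hx
    rw [pow_zero, mul_one]
    have h1 : 0 ≤ t := by
      have h2 : R ^ 2 / (ν * K ^ 2) ≤ t₁ := by
        rw [div_le_iff₀ (by positivity)]
        have : 1 ≤ K ^ 2 := by nlinarith
        have h3 : 0 < ν * t₁ := mul_pos hν ht₁.1
        nlinarith
      linarith [ht.1]
    have := hMb t ⟨h1, ht.2.trans ht₁.2⟩ x hx
    linarith
  | succ k ih =>
    obtain ⟨Rk, hRk⟩ : ∃ Rk : ℝ, Rk = R / K ^ k := ⟨_, rfl⟩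
    have hRk0 : 0 < Rk := by rw [hRk]; positivity
    have hRkR : Rk ≤ R := by
      rw [hRk]
      exact div_le_self hR.le (one_le_pow₀ (by linarith))
    have hRs : R / K ^ (k + 1) = Rk / K := by rw [hRk, pow_succ, div_div]
    rw [← hRk] at ih
    rw [hRs]
    obtain ⟨hk, hhk⟩ : ∃ hk : ℝ, hk = Rk ^ 2 / (ν * K ^ 2) := ⟨_, rfl⟩
    have hhk0 : 0 < hk := by rw [hhk]; positivity
    rw [← hhk] at ih
    have hνh : ν * hk = (Rk / K) ^ 2 := by rw [hhk]; field_simp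
    have hνh0 : 0 < ν * hk := by positivity
    have hhkt : hk ≤ t₁ := by
      rw [hhk, div_le_iff₀ (by positivity)]
      have h1 : Rk ^ 2 ≤ R ^ 2 := by gcongr
      have h2 : 1 ≤ K ^ 2 := by nlinarith
      have h3 : 0 < ν * t₁ := mul_pos hν ht₁.1
      nlinarith
    obtain ⟨m, hm⟩ : ∃ m : ℝ, m = δ + (M - δ) * θ ^ k := ⟨_, rfl⟩
    have hmδ : δ ≤ m := by
      have : 0 ≤ (M - δ) * θ ^ k := mul_nonneg (by linarith) (by positivity)
      rw [hm]; linarith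
    rw [← hm] at ih
    -- the shifted solution on the window
    have hsh := BSol.shift h (t₀ := t₁ - hk) (by linarith)
    have hw := hsh.restrict (T' := hk) (by linarith [ht₁.2])
    have st := step hν hhk0 hw (R := Rk) (m := m) (δ := δ) (ε := ε) hRk0 hδ hmδ hε ha ha2
      (b := fun r => b (t₁ - hk + r))
      (hb.comp (by fun_prop) fun r hr => ⟨by linarith [hr.1], by linarith [hr.2, ht₁.2]⟩)
      (fun r hr => hb0 _ ⟨by linarith [hr.1], by linarith [hr.2, ht₁.2]⟩)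
      (c1 (ν * hk) Rk (by positivity) (by rw [hνh]; apply le_of_eq; field_simp))
      (fun r hr x hx => ih (t₁ - hk + r) ⟨by linarith [hr.1], by linarith [hr.2]⟩ x hx)
      (fun r hr x hx hx2 hx3 => hcond (t₁ - hk + r) ⟨by linarith [hr.1], by linarith [hr.2, ht₁.2]⟩
        x hx (hx2.trans_le (by gcongr)) hx3)
    intro t ht x hx
    have hKh : (Rk / K) ^ 2 / (ν * K ^ 2) ≤ hk / 2 := by
      rw [← hνh, div_le_div_iff₀ (by positivity) (by norm_num)]
      have : 2 ≤ K ^ 2 := by nlinarith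
      nlinarith
    obtain ⟨r, hr⟩ : ∃ r : ℝ, r = t - (t₁ - hk) := ⟨_, rfl⟩
    have hr1 : hk / 2 ≤ r := by rw [hr]; linarith [ht.1]
    have hr2 : r < hk := by rw [hr]; linarith [ht.2]
    have hr0 : 0 < r := by linarith
    have hxR : sg x ≤ Rk ^ 2 := hx.trans (by
      have : Rk / K ≤ Rk := div_le_self hRk0.le (by linarith)
      gcongr)
    have h1 := st r ⟨hr0, hr2⟩ x hxR
    have e1 : t₁ - hk + r = t := by rw [hr]; ring
    simp only [e1] at h1
    have hD : ∫ s in (0 : ℝ)..r, b (t₁ - hk + s) ≤ C * (ν * hk) ^ a := by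
      rw [intervalIntegral.integral_comp_add_left (fun s => b s) (t₁ - hk), add_zero]
      have h2 := hbC (t₁ - hk) (t₁ - hk + r) (by linarith) (by linarith) (by linarith [ht₁.2])
      refine h2.trans ?_
      rw [show t₁ - hk + r - (t₁ - hk) = r by ring]
      gcongr
    have hD0 : 0 ≤ ∫ s in (0 : ℝ)..r, b (t₁ - hk + s) :=
      intervalIntegral.integral_nonneg hr0.le fun s hs => hb0 _
        ⟨by linarith [hs.1], by linarith [hs.2, ht₁.2]⟩
    obtain ⟨D, hDe⟩ : ∃ D : ℝ, D = ∫ s in (0 : ℝ)..r, b (t₁ - hk + s) := ⟨_, rfl⟩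
    rw [← hDe] at h1 hD hD0
    have hsga : 0 ≤ sg x ^ a := Real.rpow_nonneg (sg_nonneg x) _
    have h4 : lo a (4 * a * ν * r) ((sg x ^ a + D) ^ (1 / a)) + ε ≤ θ := by
      have h5 : lo a (4 * a * ν * r) ((sg x ^ a + D) ^ (1 / a))
          ≤ lo a (2 * a * (ν * hk)) ((sg x ^ a + D) ^ (1 / a)) := by
        refine lo_mono ha.le (by positivity) ?_ (by positivity) le_rfl
        have h6 : 2 * a * ν * hk ≤ 2 * a * ν * (2 * r) := by
          apply mul_le_mul_of_nonneg_left _ (by positivity)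
          linarith
        linarith
      have h6 := c2 (ν * hk) ((sg x ^ a + D) ^ (1 / a)) (by positivity) (by positivity) (by
        have h7 : sg x ^ a ≤ (ν * hk) ^ a := by
          rw [hνh]
          exact Real.rpow_le_rpow (sg_nonneg x) hx ha.le
        have h8 : sg x ^ a + D ≤ (1 + C) * (ν * hk) ^ a := by linarith
        calc (sg x ^ a + D) ^ (1 / a) ≤ ((1 + C) * (ν * hk) ^ a) ^ (1 / a) :=
              Real.rpow_le_rpow (by positivity) h8 (by positivity)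
          _ = _ := by
            rw [Real.mul_rpow (by linarith) (by positivity), ← Real.rpow_mul hνh0.le,
              mul_one_div_cancel ha.ne', Real.rpow_one])
      linarith
    have h9 := mul_le_mul_of_nonneg_left h4 (show 0 ≤ m - δ by linarith)
    have h10 : (m - δ) * θ = (M - δ) * θ ^ (k + 1) := by rw [hm, pow_succ]; ring
    linarith

end Pool.Agent.X96.AX
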