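import Pool.Agent.X96.AX.Mor3

/-!
Axisymmetric flows (helper96): one-sided conditions on the radial velocity of critical Morrey type
in time.
-/

set_option autoImplicit false

open MeasureTheory Set Metric Filter Topology
open scoped ContDiff

namespace Pool.Agent.X96.AX

open H459R3.NS W221.NS Pool.Agent.TH305.DR Pool.Agent.TH305.AX

/-- **Hoelder estimate of the circulation.** -/
theorem morrey {a C : ℝ} (ha : 0 < a) (ha2 : a ≤ 1 / 2) (hC : 0 ≤ C) : ∃ γ : ℝ, 0 < γ ∧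
    ∀ (ν T : ℝ) (u : ℝ → V → V) (p : ℝ → V → ℝ), 0 < ν → BSol ν T u p →
      ∀ (R M δ : ℝ) (b : ℝ → ℝ), 0 < R → 0 ≤ δ → 0 ≤ M → ContinuousOn b (Ico 0 T) →
      (∀ t ∈ Ico 0 T, 0 ≤ b t) →
      (∀ s t, 0 ≤ s → s ≤ t → t < T → ∫ r in s..t, b r ≤ C * (ν * (t - s)) ^ a) →
      (∀ t ∈ Ico 0 T, ∀ x, sg x ≤ R ^ 2 → |circ (u t) x| ≤ M) →
      (∀ t ∈ Ioo 0 T, ∀ x, 0 < sg x → sg x < R ^ 2 → δ < |circ (u t) x| →
        -(2 * (1 - a) * ν) - b t / (2 * a) * sg x ^ (1 - a)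
          ≤ x 0 * u t x 0 + x 1 * u t x 1) →
      ∀ t ∈ Ioo 0 T, ∀ x, sg x ≤ R ^ 2 →
        |circ (u t) x| ≤ δ + 2 * M * (√(sg x) / min R √(ν * t)) ^ γ := by
  obtain ⟨ε, K, θ, hε, hK, hθ, hθ1, c1, c2⟩ := consts ha ha2 hC
  have hK0 : 0 < K := by linarith
  have hθ0 : 0 < θ := by linarith
  have hlK : 0 < Real.log K := Real.log_pos (by linarith)
  have hlθ : Real.log θ < 0 := Real.log_neg hθ0 hθ1
  obtain ⟨γ, hγe⟩ : ∃ γ : ℝ, γ = -Real.log θ / Real.log K := ⟨_, rfl⟩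
  have hγ : 0 < γ := by rw [hγe]; exact div_pos (by linarith) hlK
  have hθγ : θ = K ^ (-γ) := by
    rw [Real.rpow_def_of_pos hK0, hγe]
    have : Real.log K * -(-Real.log θ / Real.log K) = Real.log θ := by field_simp
    rw [this, Real.exp_log hθ0]
  refine ⟨γ, hγ, ?_⟩
  intro ν T u p hν h R M δ b hR hδ hM hb hb0 hbC hMb hcond t ht x hx
  have hνt : 0 < √(ν * t) := Real.sqrt_pos.2 (mul_pos hν ht.1)
  obtain ⟨R₁, hR₁⟩ : ∃ R₁ : ℝ, R₁ = min R √(ν * t) := ⟨_, rfl⟩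
  have hR₁0 : 0 < R₁ := by rw [hR₁]; exact lt_min hR hνt
  have hR₁R : R₁ ≤ R := by rw [hR₁]; exact min_le_left _ _
  have hR₁ν : R₁ ^ 2 ≤ ν * t := by
    have h1 : R₁ ≤ √(ν * t) := by rw [hR₁]; exact min_le_right _ _
    calc R₁ ^ 2 ≤ √(ν * t) ^ 2 := by gcongr
      _ = ν * t := Real.sq_sqrt (mul_pos hν ht.1).le
  rw [← hR₁]
  have hR₁2 : R₁ ^ 2 ≤ R ^ 2 := by gcongr
  have hpow0 : 0 ≤ (√(sg x) / R₁) ^ γ := Real.rpow_nonneg (by positivity) _
  rcases lt_or_ge M δ with hMδ | hMδ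
  · have h1 := hMb t ⟨ht.1.le, ht.2⟩ x hx
    have : 0 ≤ 2 * M * (√(sg x) / R₁) ^ γ := by positivity
    linarith
  rcases eq_or_lt_of_le (sg_nonneg x) with h0 | h0
  · rw [circ_axis (u t) h0.symm, abs_zero]
    positivity
  have hρ : 0 < √(sg x) := Real.sqrt_pos.2 h0
  rcases lt_or_ge R₁ (√(sg x)) with h1 | h1
  · have h2 := hMb t ⟨ht.1.le, ht.2⟩ x hx
    have h3 : 1 ≤ (√(sg x) / R₁) ^ γ := by
      apply Real.one_le_rpow _ hγ.le
      rw [one_le_div hR₁0]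
      exact h1.le
    have h4 : M * 1 ≤ M * (√(sg x) / R₁) ^ γ := mul_le_mul_of_nonneg_left h3 hM
    linarith
  · obtain ⟨k, hk1, hk2⟩ := exists_nat_pow_near (x := R₁ / √(sg x)) (y := K)
      (by rw [one_le_div hρ]; exact h1) (by linarith)
    have hit := iter ha ha2 hC hε hK hθ c1 c2 hν h (R := R₁) (M := M) (δ := δ) hR₁0 hδ hMδ hb hb0 hbC
      (fun s hs y hy => hMb s hs y (hy.trans hR₁2))
      (fun s hs y hy hy2 hy3 => hcond s hs y hy (hy2.trans_le hR₁2) hy3) ht hR₁ν k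
    have hsx : sg x ≤ (R₁ / K ^ k) ^ 2 := by
      have h2 : √(sg x) ≤ R₁ / K ^ k := by
        rw [le_div_iff₀ hρ] at hk1
        rw [le_div_iff₀ (by positivity)]
        linarith
      calc sg x = √(sg x) ^ 2 := (Real.sq_sqrt h0.le).symm
        _ ≤ _ := by gcongr
    obtain ⟨w, hw⟩ : ∃ w : ℝ, w = (R₁ / K ^ k) ^ 2 / (ν * K ^ 2) := ⟨_, rfl⟩
    have hw0 : 0 < w := by rw [hw]; positivity
    rw [← hw] at hit
    have hfin := circ_left h ht x (B := δ + (M - δ) * θ ^ k) (τ := t - w) (by linarith)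
      (fun s hs => hit s ⟨hs.1.le, hs.2⟩ x hsx)
    refine hfin.trans ?_
    have h5 : θ ^ (k + 1) ≤ (√(sg x) / R₁) ^ γ := by
      have h6 : θ ^ (k + 1) = (K ^ (k + 1)) ^ (-γ) := by
        rw [hθγ, ← Real.rpow_natCast, ← Real.rpow_mul hK0.le, ← Real.rpow_natCast,
          ← Real.rpow_mul hK0.le]
        congr 1
        ring
      have h7 : (√(sg x) / R₁) ^ γ = (R₁ / √(sg x)) ^ (-γ) := by
        rw [Real.rpow_neg (by positivity), ← Real.inv_rpow (by positivity), inv_div]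
      rw [h6, h7]
      exact Real.rpow_le_rpow_of_nonpos (by positivity) hk2.le (by linarith)
    have h8 : θ ^ k ≤ 2 * (√(sg x) / R₁) ^ γ := by
      have h9 : 0 ≤ θ ^ k := by positivity
      rw [pow_succ] at h5
      nlinarith
    have h10 : (M - δ) * θ ^ k ≤ M * (2 * (√(sg x) / R₁) ^ γ) := by
      apply mul_le_mul (by linarith) h8 (by positivity) hM
    linarith

/-- **Ancient solutions.** -/
theorem ancientM {ν : ℝ} (hν : 0 < ν) {u : ℝ → V → V} {p : ℝ → V → ℝ}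
    (h : ∀ t₀ < 0, BSol ν (-t₀) (fun t => u (t₀ + t)) (fun t => p (t₀ + t))) {M : ℝ}
    (hM : ∀ t < 0, ∀ x, |circ (u t) x| ≤ M)
    (hcond : ∀ δ > 0, ∃ (a C : ℝ) (b : ℝ → ℝ), 0 < a ∧ a ≤ 1 / 2 ∧ 0 ≤ C ∧
      ContinuousOn b (Iio 0) ∧
      (∀ t < 0, 0 ≤ b t) ∧ (∀ s t, s ≤ t → t < 0 → ∫ r in s..t, b r ≤ C * (ν * (t - s)) ^ a) ∧
      ∀ t < 0, ∀ x, 0 < sg x → δ < |circ (u t) x| →
        -(2 * (1 - a) * ν) - b t / (2 * a) * sg x ^ (1 - a) ≤ x 0 * u t x 0 + x 1 * u t x 1) :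
    ∀ t < 0, ∀ x, circ (u t) x = 0 := by
  intro t ht x
  have hM0 : 0 ≤ M := (abs_nonneg _).trans (hM t ht x)
  rw [← abs_nonpos_iff]
  apply le_of_forall_pos_le_add
  intro d hd
  rw [zero_add]
  obtain ⟨a, C, b, ha, ha2, hC, hb, hb0, hbC, hc⟩ := hcond (d / 2) (by positivity)
  obtain ⟨γ, hγ, H⟩ := morrey ha ha2 hC
  have hlim : Tendsto (fun q : ℝ => 2 * M * (√(sg x) / √(ν * q)) ^ γ) atTop
      (𝓝 (2 * M * (0 : ℝ) ^ γ)) := by
    apply Tendsto.const_mul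
    apply Tendsto.rpow_const
    · have h1 : Tendsto (fun q : ℝ => √(ν * q)) atTop atTop :=
        Real.tendsto_sqrt_atTop.comp (tendsto_id.const_mul_atTop hν)
      exact tendsto_const_nhds.div_atTop h1
    · exact Or.inr hγ.le
  rw [Real.zero_rpow hγ.ne', mul_zero] at hlim
  have hev := (hlim.eventually (gt_mem_nhds (show (0 : ℝ) < d / 2 by positivity))).and
    (eventually_gt_atTop ((sg x + 1) / ν))
  obtain ⟨q, hq1, hq2⟩ := (hev.and (eventually_gt_atTop 0)).exists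
  obtain ⟨hq1, hq3⟩ := hq1
  obtain ⟨t₀, ht₀⟩ : ∃ t₀ : ℝ, t₀ = t - q := ⟨_, rfl⟩
  have ht₀0 : t₀ < 0 := by linarith
  have hνq : 0 < ν * q := mul_pos hν hq2
  have hR : 0 < √(ν * q) := Real.sqrt_pos.2 hνq
  have hmem : t - t₀ ∈ Ioo 0 (-t₀) := ⟨by linarith, by linarith⟩
  have key := H ν (-t₀) (fun t => u (t₀ + t)) (fun t => p (t₀ + t)) hν (h t₀ ht₀0) (√(ν * q)) M
    (d / 2) (fun r => b (t₀ + r)) hR (by positivity) hM0
    (hb.comp (by fun_prop) fun r hr => by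
      show t₀ + r < 0
      linarith [hr.2])
    (fun r hr => hb0 _ (by linarith [hr.2]))
    (fun s r hs hsr hr => by
      rw [intervalIntegral.integral_comp_add_left (fun r => b r) t₀]
      have h1 := hbC (t₀ + s) (t₀ + r) (by linarith) (by linarith)
      rw [show t₀ + r - (t₀ + s) = r - s by ring] at h1
      exact h1)
    (fun r hr y _ => hM _ (by linarith [hr.2]) y)
    (fun r hr y hy _ hyd => hc _ (by linarith [hr.2]) y hy hyd) (t - t₀) hmem x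
    (by
      rw [Real.sq_sqrt hνq.le]
      rw [div_lt_iff₀ hν] at hq3
      linarith)
  have e : t₀ + (t - t₀) = t := by ring
  have e2 : t - t₀ = q := by rw [ht₀]; ring
  rw [e, e2, min_self] at key
  linarith

end Pool.Agent.X96.AX
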