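import Pool.Agent.X96.AX.Rad3

/-!
Axisymmetric flows (helper96): one-sided condition on the pressure of type I before a possible
blow-up time, and the resulting Hoelder bound of the circulation.
-/

set_option autoImplicit false

open MeasureTheory Set Metric Filter Topology
open scoped ContDiff

namespace Pool.Agent.X96.AX

open H459R3.NS W221.NS Pool.Agent.TH305.DR Pool.Agent.TH305.AX

/-- the type I rate -/
noncomputable def rate (C ν T t : ℝ) : ℝ := C * √(ν / (T - t))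

lemma rate_nonneg {C ν T t : ℝ} (hC : 0 ≤ C) : 0 ≤ rate C ν T t := by
  unfold rate
  positivity

lemma rate_deriv {C ν T t : ℝ} (hν : 0 < ν) (ht : t < T) :
    HasDerivAt (rate C ν T) (rate C ν T t / (2 * (T - t))) t := by
  have hTt : 0 < T - t := by linarith
  have h1 : HasDerivAt (fun τ : ℝ => T - τ) (-1) t := by
    simpa using (hasDerivAt_id t).const_sub T
  have h2 : HasDerivAt (fun τ : ℝ => ν / (T - τ)) (ν / (T - t) ^ 2) t := by
    have h3 := (h1.inv hTt.ne').const_mul ν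
    refine (h3.congr_deriv ?_).congr_of_eventuallyEq (Eventually.of_forall fun r => ?_)
    · field_simp
    · simp [div_eq_mul_inv]
  have h4 := (h2.sqrt (by positivity)).const_mul C
  refine h4.congr_deriv ?_
  unfold rate
  have h5 : √(ν / (T - t)) ^ 2 = ν / (T - t) := Real.sq_sqrt (by positivity)
  have h6 : 0 < √(ν / (T - t)) := Real.sqrt_pos.2 (by positivity)
  obtain ⟨s, hs⟩ : ∃ s : ℝ, s = √(ν / (T - t)) := ⟨_, rfl⟩
  rw [← hs] at h5 h6 ⊢
  have h7 : ν = s ^ 2 * (T - t) := by rw [h5]; field_simp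
  rw [h7]
  field_simp

lemma rate_cont {C ν T : ℝ} (hν : 0 < ν) : ContinuousOn (rate C ν T) (Ico 0 T) :=
  fun _ ht => (rate_deriv hν ht.2).continuousAt.continuousWithinAt

lemma rate_pow {C ν T t q : ℝ} (hC : 0 ≤ C) (hν : 0 < ν) (ht : t < T) :
    rate C ν T t ^ q = C ^ q * ν ^ (q / 2) * (T - t) ^ (-(q / 2)) := by
  have hTt : 0 < T - t := by linarith
  unfold rate
  rw [Real.mul_rpow hC (Real.sqrt_nonneg _), Real.sqrt_eq_rpow, ← Real.rpow_mul (by positivity),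
    Real.div_rpow hν.le hTt.le, Real.rpow_neg hTt.le]
  have : (1 / 2 : ℝ) * q = q / 2 := by ring
  rw [this]
  field_simp

lemma rate_int {C ν T q : ℝ} (hC : 0 ≤ C) (hν : 0 < ν) (hq : 1 ≤ q) (hq2 : q < 2) {s t : ℝ}
    (hst : s ≤ t) (ht : t < T) :
    ∫ r in s..t, rate C ν T r ^ q
      ≤ C ^ q / (1 - q / 2) * ν ^ (q / 2) * (t - s) ^ (1 - q / 2) := by
  have ha : 0 < 1 - q / 2 := by linarith
  have e1 : ∫ r in s..t, rate C ν T r ^ q
      = ∫ r in s..t, C ^ q * ν ^ (q / 2) * (T - r) ^ (-(q / 2)) := by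
    apply intervalIntegral.integral_congr
    intro r hr
    rw [uIcc_of_le hst] at hr
    exact rate_pow hC hν (hr.2.trans_lt ht)
  have e2 : ∫ r in s..t, (T - r) ^ (-(q / 2)) = ∫ r in (T - t)..(T - s), r ^ (-(q / 2)) :=
    intervalIntegral.integral_comp_sub_left (fun r => r ^ (-(q / 2))) T
  have e3 : ∫ r in (T - t)..(T - s), r ^ (-(q / 2))
      = ((T - s) ^ (1 - q / 2) - (T - t) ^ (1 - q / 2)) / (1 - q / 2) := by
    rw [integral_rpow (Or.inl (by linarith))]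
    have : -(q / 2) + 1 = 1 - q / 2 := by ring
    rw [this]
  have h4 : (T - s) ^ (1 - q / 2) ≤ (T - t) ^ (1 - q / 2) + (t - s) ^ (1 - q / 2) := by
    have h5 := Real.rpow_add_le_add_rpow (p := 1 - q / 2) (show 0 ≤ T - t by linarith)
      (show 0 ≤ t - s by linarith) ha.le (by linarith)
    have h6 : T - t + (t - s) = T - s := by ring
    rwa [h6] at h5
  rw [e1, intervalIntegral.integral_const_mul, e2, e3]
  have h7 : ((T - s) ^ (1 - q / 2) - (T - t) ^ (1 - q / 2)) / (1 - q / 2)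
      ≤ (t - s) ^ (1 - q / 2) / (1 - q / 2) := by
    gcongr
    linarith
  have h8 : 0 ≤ C ^ q * ν ^ (q / 2) := by positivity
  calc _ ≤ C ^ q * ν ^ (q / 2) * ((t - s) ^ (1 - q / 2) / (1 - q / 2)) := by gcongr
    _ = _ := by ring

/-- the number `ρ / √(ν (T - t))` -/
noncomputable def ssv (ν T t : ℝ) (x : V) : ℝ := √(sg x) / √(ν * (T - t))

lemma ssv_rate {C ν T t : ℝ} {x : V} (hν : 0 < ν) (ht : t < T) :
    rate C ν T t * √(sg x) = C * ssv ν T t x * ν := by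
  have hTt : 0 < T - t := by linarith
  unfold rate ssv
  rw [Real.sqrt_div hν.le, Real.sqrt_mul hν.le]
  have h1 : 0 < √ν := Real.sqrt_pos.2 hν
  have h2 : 0 < √(T - t) := Real.sqrt_pos.2 hTt
  have h3 : √ν ^ 2 = ν := Real.sq_sqrt hν.le
  obtain ⟨a, ha⟩ : ∃ a : ℝ, a = √ν := ⟨_, rfl⟩
  rw [← ha] at h1 h3 ⊢
  rw [← h3]
  field_simp

lemma press_conv {C ν T t P G g : ℝ} {x : V} (hν : 0 < ν) (ht : t < T) (hx : 0 < sg x)
    (hP : P ≤ (G ^ 2 + g * (g + C * ssv ν T t x * ν)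
      + ν ^ 2 * C * (ssv ν T t x + ssv ν T t x ^ 3 / 2)) / sg x) :
    P ≤ (g * (g + rate C ν T t * √(sg x)) + G ^ 2) / sg x + ν * rate C ν T t / √(sg x)
      + rate C ν T t / (2 * (T - t)) * √(sg x) := by
  have hTt : 0 < T - t := by linarith
  refine hP.trans (le_of_eq ?_)
  unfold rate ssv
  rw [Real.sqrt_div hν.le, Real.sqrt_mul hν.le]
  have h1 : 0 < √ν := Real.sqrt_pos.2 hν
  have h2 : 0 < √(T - t) := Real.sqrt_pos.2 hTt
  have h3 : √ν ^ 2 = ν := Real.sq_sqrt hν.le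
  have h4 : √(T - t) ^ 2 = T - t := Real.sq_sqrt hTt.le
  have h5 : 0 < √(sg x) := Real.sqrt_pos.2 hx
  have h6 : √(sg x) ^ 2 = sg x := Real.sq_sqrt hx.le
  obtain ⟨a, ha⟩ : ∃ a : ℝ, a = √ν := ⟨_, rfl⟩
  obtain ⟨b, hb⟩ : ∃ b : ℝ, b = √(T - t) := ⟨_, rfl⟩
  obtain ⟨d, hd⟩ : ∃ d : ℝ, d = √(sg x) := ⟨_, rfl⟩
  rw [← ha] at h1 h3 ⊢
  rw [← hb] at h2 h4 ⊢
  rw [← hd] at h5 h6 ⊢
  rw [← h3, ← h4, ← h6]
  field_simp
  ring

lemma rate_conv {κ C ν T t : ℝ} {x : V} (hν : 0 < ν) (ht : t < T) :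
    -(κ * ν) - rate C ν T t * √(sg x) = -((κ + C * ssv ν T t x) * ν) := by
  rw [ssv_rate hν ht]; ring

/-- **Hoelder bound of the circulation under a one-sided bound of type I.** -/
theorem rateHolder {κ C : ℝ} (hκ2 : κ < 2) (hC : 0 ≤ C) :
    ∃ γ : ℝ, 0 < γ ∧ ∀ (ν T : ℝ) (u : ℝ → V → V) (p : ℝ → V → ℝ), 0 < ν → BSol ν T u p →
      ∀ (R M : ℝ), 0 < R → 0 ≤ M →
      (∀ t ∈ Ico 0 T, ∀ x, sg x ≤ R ^ 2 → |circ (u t) x| ≤ M) →
      (∀ t ∈ Ico 0 T, ∀ x, sg x ≤ R ^ 2 → -((κ + C * ssv ν T t x) * ν) ≤ rad (u t) x) →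
      ∀ t ∈ Ioo 0 T, ∀ x, sg x ≤ R ^ 2 →
        |circ (u t) x| ≤ 2 * M * (√(sg x) / min R √(ν * t)) ^ γ := by
  obtain ⟨q, hqe⟩ : ∃ q : ℝ, q = max 1 ((κ + 2) / 2) := ⟨_, rfl⟩
  have hq : 1 ≤ q := by rw [hqe]; exact le_max_left _ _
  have hqκ : κ < q := by
    rw [hqe]; exact lt_of_lt_of_le (by linarith) (le_max_right _ _)
  have hq2 : q < 2 := by rw [hqe]; exact max_lt (by norm_num) (by linarith)
  obtain ⟨γ, hγ, H⟩ := holderM (q := q) (κ := κ) (C := C ^ q / (1 - q / 2)) hq hq2 (Or.inl hqκ)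
    (by
      have : 0 < 1 - q / 2 := by linarith
      positivity)
  refine ⟨γ, hγ, ?_⟩
  intro ν T u p hν h R M hR hM hMb h1
  have h2 := H ν T u p hν h R M 0 (rate C ν T) hR le_rfl hM (rate_cont hν)
    (fun t _ => rate_nonneg hC)
    (fun s t _ hst ht => rate_int hC hν hq hq2 hst ht) hMb
    (fun t ht x hx hx2 _ => by
      rw [rate_conv hν ht.2]
      exact h1 t ⟨ht.1.le, ht.2⟩ x hx2.le)
  intro t ht x hx
  have := h2 t ht x hx
  rwa [zero_add] at this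

/-- **One-sided type I condition on the pressure, cylinder.** -/
theorem pressI {ν T : ℝ} {u : ℝ → V → V} {p : ℝ → V → ℝ} (hν : 0 < ν) (h : BSol ν T u p)
    {κ C : ℝ} (hκ : 0 ≤ κ) (hC : 0 ≤ C) {R : ℝ} (hR : 0 < R)
    (hin : ∀ x, sg x ≤ R ^ 2 → -((κ + C * ssv ν T 0 x) * ν) ≤ rad (u 0) x)
    (hlat : ∀ t ∈ Ico 0 T, ∀ x, sg x = R ^ 2 → -((κ + C * ssv ν T t x) * ν) ≤ rad (u t) x)
    (hp : ∀ t ∈ Ioo 0 T, ∀ x, 0 < sg x → sg x < R ^ 2 →
        rad (u t) x < -((κ + C * ssv ν T t x) * ν) →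
        x 0 * pd 0 (p t) x + x 1 * pd 1 (p t) x
          ≤ (circ (u t) x ^ 2 + rad (u t) x * (rad (u t) x + C * ssv ν T t x * ν)
            + ν ^ 2 * C * (ssv ν T t x + ssv ν T t x ^ 3 / 2)) / sg x) :
    ∀ t ∈ Ico 0 T, ∀ x, sg x ≤ R ^ 2 → -((κ + C * ssv ν T t x) * ν) ≤ rad (u t) x := by
  rcases le_or_gt T 0 with hT | hT
  · intro t ht
    exact absurd (ht.1.trans_lt ht.2) (not_lt.2 hT)
  intro t ht x hx
  rw [← rate_conv hν ht.2]
  refine inflow_local hν h hκ hR (c := rate C ν T)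
    (c' := fun t => rate C ν T t / (2 * (T - t))) (fun t _ => rate_nonneg hC) (rate_cont hν)
    (fun t ht => rate_deriv hν ht.2) ?_ ?_ ?_ t ht x hx
  · intro x hx
    rw [rate_conv hν hT]
    exact hin x hx
  · intro t ht x hx
    have h2 := hlat t ht x hx
    rw [← rate_conv hν ht.2, hx, Real.sqrt_sq hR.le] at h2
    exact h2
  · intro t ht x hx hxR hrad
    rw [rate_conv hν ht.2] at hrad
    exact press_conv hν ht.2 hx (hp t ht x hx hxR hrad)

/-- **One-sided type I condition on the pressure, whole space.** -/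
theorem pressII {ν T : ℝ} {u : ℝ → V → V} {p : ℝ → V → ℝ} (hν : 0 < ν) (h : BSol ν T u p)
    {κ C : ℝ} (hκ : 0 ≤ κ) (hC : 0 ≤ C)
    (hin : ∀ x, -((κ + C * ssv ν T 0 x) * ν) ≤ rad (u 0) x)
    (hp : ∀ t ∈ Ioo 0 T, ∀ x, 0 < sg x →
        rad (u t) x < -((κ + C * ssv ν T t x) * ν) →
        x 0 * pd 0 (p t) x + x 1 * pd 1 (p t) x
          ≤ (circ (u t) x ^ 2 + rad (u t) x * (rad (u t) x + C * ssv ν T t x * ν)
            + ν ^ 2 * C * (ssv ν T t x + ssv ν T t x ^ 3 / 2)) / sg x) :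
    ∀ t ∈ Ico 0 T, ∀ x, -((κ + C * ssv ν T t x) * ν) ≤ rad (u t) x := by
  rcases le_or_gt T 0 with hT | hT
  · intro t ht
    exact absurd (ht.1.trans_lt ht.2) (not_lt.2 hT)
  intro t ht x
  rw [← rate_conv hν ht.2]
  refine inflow_global hν h hκ (c := rate C ν T)
    (c' := fun t => rate C ν T t / (2 * (T - t))) (fun t _ => rate_nonneg hC) (rate_cont hν)
    (fun t ht => rate_deriv hν ht.2) ?_ ?_ t ht x
  · intro x
    rw [rate_conv hν hT]
    exact hin x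
  · intro t ht x hx hrad
    rw [rate_conv hν ht.2] at hrad
    exact press_conv hν ht.2 hx (hp t ht x hx hrad)

end Pool.Agent.X96.AX
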